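import Pool.Agent.J4H75.PN.UWeyl

/-!
# Discrepancy and exponential sums on the torus
-/

set_option autoImplicit false

open MeasureTheory Filter Topology Finset
open scoped Real

namespace Pool.Agent.J4H75.PN

variable {s : ℕ}

/-- a trapezoid on the circle -/
noncomputable def trap (c r η : ℝ) (z : UnitAddCircle) : ℝ :=
  max 0 (min 1 (1 + (r - dist z (c : UnitAddCircle)) / η))

lemma trap_cont (c r η : ℝ) : Continuous (trap c r η) := by
  unfold trap
  refine continuous_const.max (continuous_const.min ?_)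
  exact continuous_const.add ((continuous_const.sub (continuous_id.dist continuous_const)).div_const _)

lemma trap_nonneg (c r η : ℝ) (z : UnitAddCircle) : 0 ≤ trap c r η z := le_max_left _ _

lemma trap_le_one (c r η : ℝ) (z : UnitAddCircle) : trap c r η z ≤ 1 := max_le zero_le_one (min_le_left _ _)

lemma trap_one (c r η : ℝ) (hη : 0 < η) (z : UnitAddCircle) (h : dist z (c : UnitAddCircle) ≤ r) :
    trap c r η z = 1 := by
  refine le_antisymm (trap_le_one _ _ _ _) ?_
  have : 0 ≤ (r - dist z (c : UnitAddCircle)) / η := div_nonneg (by linarith) hη.le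
  exact le_max_of_le_right (le_min le_rfl (by linarith))

lemma trap_zero (c r η : ℝ) (hη : 0 < η) (z : UnitAddCircle) (h : r + η ≤ dist z (c : UnitAddCircle)) :
    trap c r η z = 0 := by
  refine le_antisymm ?_ (trap_nonneg _ _ _ _)
  refine max_le le_rfl ((min_le_right _ _).trans ?_)
  have h2 : (r - dist z (c : UnitAddCircle)) / η ≤ -1 := by
    rw [div_le_iff₀ hη]
    linarith
  linarith

lemma vol_ball (c : UnitAddCircle) (r : ℝ) :
    (AddCircle.haarAddCircle (T := (1 : ℝ))).real (Metric.closedBall c r) = max 0 (min 1 (2 * r)) := by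
  have h3 : (AddCircle.haarAddCircle (T := (1 : ℝ))) = (volume : Measure UnitAddCircle) := by
    rw [AddCircle.volume_eq_smul_haarAddCircle]
    simp
  rw [h3, Measure.real, AddCircle.volume_closedBall, ENNReal.toReal_ofReal', max_comm]

lemma trap_integrable (c r η : ℝ) : Integrable (trap c r η) (AddCircle.haarAddCircle (T := (1 : ℝ))) :=
  (trap_cont c r η).integrable_of_hasCompactSupport (HasCompactSupport.of_compactSpace _)

lemma trap_int_le (c r η : ℝ) (hη : 0 < η) (hr : 0 ≤ r) :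
    ∫ z, trap c r η z ∂(AddCircle.haarAddCircle (T := (1 : ℝ))) ≤ 2 * (r + η) := by
  have h1 : ∀ z, trap c r η z ≤
      Set.indicator (Metric.closedBall (c : UnitAddCircle) (r + η)) (fun _ => (1 : ℝ)) z := by
    intro z
    by_cases hz : z ∈ Metric.closedBall (c : UnitAddCircle) (r + η)
    · rw [Set.indicator_of_mem hz]
      exact trap_le_one _ _ _ _
    · rw [Set.indicator_of_notMem hz]
      rw [Metric.mem_closedBall, not_le] at hz
      exact (trap_zero c r η hη z hz.le).le
  have h2 : ∫ z, trap c r η z ∂(AddCircle.haarAddCircle (T := (1 : ℝ))) ≤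
      ∫ z, Set.indicator (Metric.closedBall (c : UnitAddCircle) (r + η)) (fun _ => (1 : ℝ)) z
        ∂(AddCircle.haarAddCircle (T := (1 : ℝ))) :=
    integral_mono (trap_integrable c r η)
      ((integrable_const 1).indicator measurableSet_closedBall) h1
  refine h2.trans ?_
  rw [integral_indicator measurableSet_closedBall, setIntegral_const, smul_eq_mul, mul_one, vol_ball]
  exact max_le (by positivity) (min_le_right _ _)

lemma trap_int_ge (c r η : ℝ) (hη : 0 < η) :
    min 1 (2 * r) ≤ ∫ z, trap c r η z ∂(AddCircle.haarAddCircle (T := (1 : ℝ))) := by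
  have h1 : ∀ z, Set.indicator (Metric.closedBall (c : UnitAddCircle) r) (fun _ => (1 : ℝ)) z ≤
      trap c r η z := by
    intro z
    by_cases hz : z ∈ Metric.closedBall (c : UnitAddCircle) r
    · rw [Set.indicator_of_mem hz, trap_one c r η hη z hz]
    · rw [Set.indicator_of_notMem hz]
      exact trap_nonneg _ _ _ _
  have h2 : ∫ z, Set.indicator (Metric.closedBall (c : UnitAddCircle) r) (fun _ => (1 : ℝ)) z
        ∂(AddCircle.haarAddCircle (T := (1 : ℝ))) ≤ ∫ z, trap c r η z ∂(AddCircle.haarAddCircle (T := (1 : ℝ))) :=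
    integral_mono ((integrable_const 1).indicator measurableSet_closedBall) (trap_integrable c r η) h1
  refine le_trans ?_ h2
  rw [integral_indicator measurableSet_closedBall, setIntegral_const, smul_eq_mul, mul_one, vol_ball]
  exact le_max_right _ _

lemma coe_fract (x : ℝ) : (x : UnitAddCircle) = (Int.fract x : ℝ) := by
  have h2 : x = Int.fract x + (⌊x⌋ : ℝ) := (Int.fract_add_floor x).symm
  have h3 : ((⌊x⌋ : ℝ) : UnitAddCircle) = 0 := by
    rw [AddCircle.coe_eq_zero_iff]
    exact ⟨⌊x⌋, by simp⟩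
  conv_lhs => rw [h2]
  rw [AddCircle.coe_add, h3, add_zero]

lemma dist_coe (x c : ℝ) : dist (x : UnitAddCircle) (c : UnitAddCircle) ≤ |Int.fract x - c| := by
  rw [coe_fract, dist_eq_norm, ← AddCircle.coe_sub]
  exact (QuotientAddGroup.norm_mk_le_norm (S := AddSubgroup.zmultiples (1 : ℝ))).trans
    (le_of_eq (Real.norm_eq_abs _))

/-- a point near the centre of an arc lies in the arc -/
lemma mem_arc (x a b : ℝ) (ha : 0 ≤ a) (hb : b ≤ 1)
    (h : dist (x : UnitAddCircle) (((a + b) / 2 : ℝ) : UnitAddCircle) < (b - a) / 2) :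
    a ≤ Int.fract x ∧ Int.fract x < b := by
  rw [coe_fract, dist_eq_norm, ← AddCircle.coe_sub, AddCircle.norm_eq] at h
  set t := Int.fract x with ht
  have h0 : 0 ≤ t := Int.fract_nonneg x
  have h1 : t < 1 := Int.fract_lt_one x
  simp only [inv_one, one_mul, mul_one] at h
  rw [abs_lt] at h
  obtain ⟨h2, h3⟩ := h
  have h4 : round (t - (a + b) / 2) = 0 := by
    by_contra hne
    rcases lt_or_gt_of_ne hne with h5 | h5
    · have h6 : ((round (t - (a + b) / 2) : ℤ) : ℝ) ≤ -1 := by exact_mod_cast (by omega : round (t - (a + b) / 2) ≤ -1)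
      linarith
    · have h6 : (1 : ℝ) ≤ ((round (t - (a + b) / 2) : ℤ) : ℝ) := by exact_mod_cast (by omega : 1 ≤ round (t - (a + b) / 2))
      linarith
  rw [h4] at h2 h3
  push_cast at h2 h3
  constructor <;> linarith

/-- the product of trapezoids -/
noncomputable def ptrap (c r : Fin s → ℝ) (η : ℝ) : C(UnitAddTorus (Fin s), ℂ) :=
  ⟨fun z => ((∏ i, trap (c i) (r i) η (z i) : ℝ) : ℂ), by
    refine Complex.continuous_ofReal.comp ?_
    exact continuous_finsetProd _ fun i _ => (trap_cont _ _ _).comp (continuous_apply i)⟩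

lemma ptrap_int (c r : Fin s → ℝ) (η : ℝ) : ∫ z, ptrap c r η z ∂(haar s) =
    ((∏ i, ∫ z, trap (c i) (r i) η z ∂(AddCircle.haarAddCircle (T := (1 : ℝ))) : ℝ) : ℂ) := by
  have h1 : ∫ z, ptrap c r η z ∂(haar s) =
      ((∫ z : UnitAddTorus (Fin s), ∏ i, trap (c i) (r i) η (z i) ∂(haar s) : ℝ) : ℂ) := integral_ofReal
  rw [h1, integral_fintype_prod_eq_prod (fun i => trap (c i) (r i) η)]

lemma mean_ptrap (c r : Fin s → ℝ) (η ε : ℝ) (hε : 0 < ε) :
    ∀ᶠ K : ℕ in atTop, ∀ (S : Finset ℕ) (x : ℕ → Fin s → ℝ), Cond K S x →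
      |∑ n ∈ S, ∏ i, trap (c i) (r i) η (x n i : UnitAddCircle) -
        S.card * ∏ i, ∫ z, trap (c i) (r i) η z ∂(AddCircle.haarAddCircle (T := (1 : ℝ)))| ≤ ε * S.card := by
  filter_upwards [mean (ptrap c r η) ε hε] with K hK S x hC
  have h1 := hK S x hC
  rw [ptrap_int] at h1
  have h2 : ∑ n ∈ S, ptrap c r η (pt (x n)) =
      ((∑ n ∈ S, ∏ i, trap (c i) (r i) η (x n i : UnitAddCircle) : ℝ) : ℂ) := by
    rw [Complex.ofReal_sum]
    rfl
  rw [h2, ← Complex.ofReal_natCast, ← Complex.ofReal_mul, ← Complex.ofReal_sub, Complex.norm_real,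
    Real.norm_eq_abs] at h1
  exact h1

/-- the points of the sequence in a box -/
noncomputable def box (S : Finset ℕ) (x : ℕ → Fin s → ℝ) (a b : Fin s → ℝ) : Finset ℕ :=
  S.filter (fun n => ∀ i, a i ≤ Int.fract (x n i) ∧ Int.fract (x n i) < b i)

open Classical in
lemma box_upper (S : Finset ℕ) (x : ℕ → Fin s → ℝ) (a b a' b' : Fin s → ℝ) (ha : ∀ i, a' i ≤ a i)
    (hb : ∀ i, b i ≤ b' i) (η : ℝ) (hη : 0 < η) :
    ((box S x a b).card : ℝ) ≤ ∑ n ∈ S, ∏ i, trap ((a' i + b' i) / 2) ((b' i - a' i) / 2) η (x n i : UnitAddCircle) := by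
  rw [box, Finset.card_filter]
  push_cast
  refine Finset.sum_le_sum fun n _ => ?_
  split_ifs with h
  · refine le_of_eq ?_
    symm
    refine Finset.prod_eq_one fun i _ => trap_one _ _ _ hη _ ?_
    refine (dist_coe _ _).trans ?_
    have := h i
    have := ha i
    have := hb i
    rw [abs_le]
    constructor <;> linarith
  · exact Finset.prod_nonneg fun i _ => trap_nonneg _ _ _ _

open Classical in
lemma box_lower (S : Finset ℕ) (x : ℕ → Fin s → ℝ) (a b a' b' : Fin s → ℝ) (ha : ∀ i, a i ≤ a' i)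
    (hb : ∀ i, b' i ≤ b i) (ha0 : ∀ i, 0 ≤ a' i) (hb1 : ∀ i, b' i ≤ 1) (η : ℝ) (hη : 0 < η) :
    ∑ n ∈ S, ∏ i, trap ((a' i + b' i) / 2) ((b' i - a' i) / 2 - η) η (x n i : UnitAddCircle) ≤
      ((box S x a b).card : ℝ) := by
  rw [box, Finset.card_filter]
  push_cast
  refine Finset.sum_le_sum fun n _ => ?_
  split_ifs with h
  · exact Finset.prod_le_one (fun i _ => trap_nonneg _ _ _ _) (fun i _ => trap_le_one _ _ _ _)
  · push Not at h
    obtain ⟨i, hi⟩ := h
    refine le_of_eq (Finset.prod_eq_zero (Finset.mem_univ i) (trap_zero _ _ _ hη _ ?_))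
    by_contra hcon
    push Not at hcon
    have h1 := mem_arc (x n i) (a' i) (b' i) (ha0 i) (hb1 i) (by linarith)
    have h2 := hi ((ha i).trans h1.1)
    have := hb i
    linarith

/-- uniform continuity of the product -/
lemma prod_uc (s : ℕ) (ε : ℝ) (hε : 0 < ε) : ∃ δ : ℝ, 0 < δ ∧ δ ≤ 1 ∧ ∀ u v : Fin s → ℝ,
    (∀ i, 0 ≤ u i ∧ u i ≤ 3) → (∀ i, 0 ≤ v i ∧ v i ≤ 3) → (∀ i, |u i - v i| < δ) →
      |∏ i, u i - ∏ i, v i| < ε := by
  have hK : IsCompact (Set.Icc (0 : Fin s → ℝ) (fun _ => 3)) := isCompact_Icc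
  have hc : ContinuousOn (fun u : Fin s → ℝ => ∏ i, u i) (Set.Icc (0 : Fin s → ℝ) (fun _ => 3)) :=
    (continuous_finsetProd _ fun i _ => continuous_apply i).continuousOn
  have huc := hK.uniformContinuousOn_of_continuous hc
  rw [Metric.uniformContinuousOn_iff] at huc
  obtain ⟨δ, hδ, h⟩ := huc ε hε
  refine ⟨min δ 1, lt_min hδ one_pos, min_le_right _ _, fun u v hu hv huv => ?_⟩
  have := h u ⟨fun i => (hu i).1, fun i => (hu i).2⟩ v ⟨fun i => (hv i).1, fun i => (hv i).2⟩ (by
    rw [dist_pi_lt_iff hδ]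
    intro i
    rw [Real.dist_eq]
    exact (huv i).trans_le (min_le_left _ _))
  rwa [Real.dist_eq] at this

/-- **uniform Weyl criterion**: small exponential sums imply small discrepancy -/
theorem uweyl (s : ℕ) (ε : ℝ) (hε : 0 < ε) : ∃ K : ℕ, 0 < K ∧ ∀ (S : Finset ℕ) (x : ℕ → Fin s → ℝ), Cond K S x →
    ∀ a b : Fin s → ℝ, (∀ i, 0 ≤ a i) → (∀ i, a i ≤ b i) → (∀ i, b i ≤ 1) →
      |((box S x a b).card : ℝ) - (∏ i, (b i - a i)) * S.card| ≤ ε * S.card := by
  obtain ⟨δ, hδ, hδ1, huc⟩ := prod_uc s (ε / 2) (by positivity)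
  obtain ⟨η, hη⟩ : ∃ η : ℝ, η = δ / 8 := ⟨_, rfl⟩
  have hη0 : 0 < η := by rw [hη]; positivity
  obtain ⟨M, hM⟩ := exists_nat_gt (8 / δ)
  have hM0 : (0 : ℝ) < M := lt_trans (by positivity) hM
  have hMδ : 1 / (M : ℝ) < δ / 8 := by
    rw [div_lt_iff₀ hδ] at hM
    rw [div_lt_iff₀ hM0]
    linarith
  -- the grid
  let gr' : (Fin s → Fin (M + 2)) → Fin s → ℝ := fun i l => ((i l : ℕ) : ℝ) / M
  have hup : ∀ᶠ K : ℕ in atTop, ∀ (i j : Fin s → Fin (M + 2)), ∀ (S : Finset ℕ) (x : ℕ → Fin s → ℝ), Cond K S x →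
      |∑ n ∈ S, ∏ l, trap ((gr' i l + gr' j l) / 2) ((gr' j l - gr' i l) / 2) η (x n l : UnitAddCircle) -
        S.card * ∏ l, ∫ z, trap ((gr' i l + gr' j l) / 2) ((gr' j l - gr' i l) / 2) η z
          ∂(AddCircle.haarAddCircle (T := (1 : ℝ)))| ≤ ε / 2 * S.card := by
    rw [eventually_all]
    intro i
    rw [eventually_all]
    intro j
    exact mean_ptrap _ _ η (ε / 2) (by positivity)
  have hlo : ∀ᶠ K : ℕ in atTop, ∀ (i j : Fin s → Fin (M + 2)), ∀ (S : Finset ℕ) (x : ℕ → Fin s → ℝ), Cond K S x →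
      |∑ n ∈ S, ∏ l, trap ((gr' i l + gr' j l) / 2) ((gr' j l - gr' i l) / 2 - η) η (x n l : UnitAddCircle) -
        S.card * ∏ l, ∫ z, trap ((gr' i l + gr' j l) / 2) ((gr' j l - gr' i l) / 2 - η) η z
          ∂(AddCircle.haarAddCircle (T := (1 : ℝ)))| ≤ ε / 2 * S.card := by
    rw [eventually_all]
    intro i
    rw [eventually_all]
    intro j
    exact mean_ptrap _ _ η (ε / 2) (by positivity)
  obtain ⟨K, hK1, hK2, hK0⟩ := (hup.and (hlo.and (eventually_gt_atTop 0))).exists
  refine ⟨K, hK0, fun S x hC a b ha hab hb => ?_⟩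
  have hS0 : (0 : ℝ) ≤ S.card := Nat.cast_nonneg _
  have hfl : ∀ t : ℝ, 0 ≤ t → t ≤ 1 → ⌊t * M⌋₊ < M + 1 := by
    intro t h0 h1
    refine Nat.lt_succ_of_le ?_
    refine Nat.floor_le_of_le ?_
    nlinarith
  have hb0 : ∀ l, 0 ≤ b l := fun l => (ha l).trans (hab l)
  have ha1 : ∀ l, a l ≤ 1 := fun l => (hab l).trans (hb l)
  -- the bounds of the floors
  have hf1 : ∀ t : ℝ, 0 ≤ t → ((⌊t * M⌋₊ : ℕ) : ℝ) / M ≤ t := by
    intro t h0
    rw [div_le_iff₀ hM0]
    exact Nat.floor_le (by positivity)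
  have hf2 : ∀ t : ℝ, t ≤ (((⌊t * M⌋₊ + 1 : ℕ)) : ℝ) / M := by
    intro t
    rw [le_div_iff₀ hM0]
    push_cast
    exact (Nat.lt_floor_add_one _).le
  have hf3 : ∀ t : ℝ, (((⌊t * M⌋₊ + 1 : ℕ)) : ℝ) / M = ((⌊t * M⌋₊ : ℕ) : ℝ) / M + 1 / M := by
    intro t
    push_cast
    rw [add_div]
  have hu : ∀ l, 0 ≤ b l - a l ∧ b l - a l ≤ 3 := fun l => by
    have := hab l; have := ha l; have := hb l
    constructor <;> linarith
  rw [abs_le]
  constructor
  · -- lower bound
    by_cases hbig : ∀ l, δ / 2 ≤ b l - a l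
    · let i : Fin s → Fin (M + 2) := fun l => ⟨⌊a l * M⌋₊ + 1, by have := hfl (a l) (ha l) (ha1 l); omega⟩
      let j : Fin s → Fin (M + 2) := fun l => ⟨⌊b l * M⌋₊, by have := hfl (b l) (hb0 l) (hb l); omega⟩
      have h1 := hK2 i j S x hC
      have hi : ∀ l, gr' i l = (((⌊a l * M⌋₊ + 1 : ℕ)) : ℝ) / M := fun l => rfl
      have hj : ∀ l, gr' j l = (((⌊b l * M⌋₊ : ℕ)) : ℝ) / M := fun l => rfl
      have h2 := box_lower S x a b (gr' i) (gr' j) (fun l => by rw [hi]; exact hf2 _)
        (fun l => by rw [hj]; exact hf1 _ (hb0 l)) (fun l => by rw [hi]; positivity)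
        (fun l => by rw [hj]; exact (hf1 _ (hb0 l)).trans (hb l)) η hη0
      -- the integrals
      have h3 : ∀ l, gr' j l - gr' i l - 2 * η ≤ ∫ z, trap ((gr' i l + gr' j l) / 2) ((gr' j l - gr' i l) / 2 - η) η z
          ∂(AddCircle.haarAddCircle (T := (1 : ℝ))) := by
        intro l
        refine le_trans ?_ (trap_int_ge _ _ η hη0)
        refine le_min ?_ (by linarith)
        have e1 : gr' j l ≤ 1 := by rw [hj]; exact (hf1 _ (hb0 l)).trans (hb l)
        have e2 : 0 ≤ gr' i l := by rw [hi]; positivity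
        linarith
      have h4 : ∀ l, b l - a l - δ < gr' j l - gr' i l - 2 * η ∧ gr' j l - gr' i l - 2 * η ≤ b l - a l ∧
          0 ≤ gr' j l - gr' i l - 2 * η := by
        intro l
        have e1 := hf1 (a l) (ha l)
        have e2 := hf2 (b l)
        have e3 := hf1 (b l) (hb0 l)
        have e4 := hf2 (a l)
        rw [hf3] at e2 e4
        rw [hi, hj, hf3]
        have e5 := hbig l
        refine ⟨by linarith, by linarith, by linarith⟩
      have h5 := huc (fun l => b l - a l) (fun l => gr' j l - gr' i l - 2 * η) hu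
        (fun l => ⟨(h4 l).2.2, (h4 l).2.1.trans (hu l).2⟩) (fun l => by
          rw [abs_lt]
          have := h4 l
          constructor <;> linarith [this.1, this.2.1])
      have h6 : ∏ l, (gr' j l - gr' i l - 2 * η) ≤
          ∏ l, ∫ z, trap ((gr' i l + gr' j l) / 2) ((gr' j l - gr' i l) / 2 - η) η z
          ∂(AddCircle.haarAddCircle (T := (1 : ℝ))) :=
        Finset.prod_le_prod (fun l _ => (h4 l).2.2) (fun l _ => h3 l)
      have h7 := (abs_le.1 h1).1
      have h8 := (abs_lt.1 h5).2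
      have h9 := mul_le_mul_of_nonneg_left h6 hS0
      have h10 : (∏ l, (b l - a l)) * S.card ≤ (∏ l, (gr' j l - gr' i l - 2 * η)) * S.card + ε / 2 * S.card := by
        rw [← add_mul]
        refine mul_le_mul_of_nonneg_right ?_ hS0
        linarith
      linarith
    · -- the volume is small
      push Not at hbig
      obtain ⟨l₀, hl₀⟩ := hbig
      have h5 := huc (fun l => b l - a l) (fun l => if l = l₀ then 0 else b l - a l) hu
        (fun l => by
          split_ifs
          · constructor <;> norm_num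
          · exact hu l) (fun l => by
          split_ifs with h
          · rw [h, sub_zero, abs_of_nonneg (hu l₀).1]
            linarith
          · rw [sub_self, abs_zero]
            exact hδ)
      have h6 : ∏ l, (if l = l₀ then 0 else b l - a l) = 0 :=
        Finset.prod_eq_zero (Finset.mem_univ l₀) (if_pos rfl)
      rw [h6, sub_zero] at h5
      have h8 := (abs_lt.1 h5).2
      have h9 : (∏ l, (b l - a l)) * S.card ≤ ε / 2 * S.card := mul_le_mul_of_nonneg_right h8.le hS0
      have h10 : (0 : ℝ) ≤ (box S x a b).card := Nat.cast_nonneg _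
      nlinarith
  · -- upper bound
    let i : Fin s → Fin (M + 2) := fun l => ⟨⌊a l * M⌋₊, by have := hfl (a l) (ha l) (ha1 l); omega⟩
    let j : Fin s → Fin (M + 2) := fun l => ⟨⌊b l * M⌋₊ + 1, by have := hfl (b l) (hb0 l) (hb l); omega⟩
    have h1 := hK1 i j S x hC
    have hi : ∀ l, gr' i l = (((⌊a l * M⌋₊ : ℕ)) : ℝ) / M := fun l => rfl
    have hj : ∀ l, gr' j l = (((⌊b l * M⌋₊ + 1 : ℕ)) : ℝ) / M := fun l => rfl
    have h2 := box_upper S x a b (gr' i) (gr' j) (fun l => by rw [hi]; exact hf1 _ (ha l))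
      (fun l => by rw [hj]; exact hf2 _) η hη0
    have h4 : ∀ l, gr' j l - gr' i l + 2 * η < b l - a l + δ ∧ b l - a l ≤ gr' j l - gr' i l := by
      intro l
      have e1 := hf1 (a l) (ha l)
      have e2 := hf2 (b l)
      have e3 := hf1 (b l) (hb0 l)
      have e4 := hf2 (a l)
      rw [hf3] at e2 e4
      rw [hi, hj, hf3]
      refine ⟨by linarith, by linarith⟩
    have h3 : ∀ l, ∫ z, trap ((gr' i l + gr' j l) / 2) ((gr' j l - gr' i l) / 2) η z
        ∂(AddCircle.haarAddCircle (T := (1 : ℝ))) ≤ gr' j l - gr' i l + 2 * η := by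
      intro l
      refine (trap_int_le _ _ η hη0 ?_).trans (by linarith)
      have := (h4 l).2
      have := (hu l).1
      linarith
    have h3' : ∀ l, 0 ≤ ∫ z, trap ((gr' i l + gr' j l) / 2) ((gr' j l - gr' i l) / 2) η z
        ∂(AddCircle.haarAddCircle (T := (1 : ℝ))) := fun l => integral_nonneg fun z => trap_nonneg _ _ _ _
    have h5 := huc (fun l => b l - a l) (fun l => gr' j l - gr' i l + 2 * η) hu
      (fun l => by
        have e1 := h4 l
        have e2 := hu l
        have e3 := hb l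
        have e4 := ha l
        constructor <;> linarith [e1.1, e1.2, e2.1, e2.2]) (fun l => by
        rw [abs_lt]
        have := h4 l
        constructor <;> linarith [this.1, this.2])
    have h6 : ∏ l, ∫ z, trap ((gr' i l + gr' j l) / 2) ((gr' j l - gr' i l) / 2) η z
        ∂(AddCircle.haarAddCircle (T := (1 : ℝ))) ≤ ∏ l, (gr' j l - gr' i l + 2 * η) :=
      Finset.prod_le_prod (fun l _ => h3' l) (fun l _ => h3 l)
    have h7 := (abs_le.1 h1).2
    have h8 := (abs_lt.1 h5).1
    have h9 := mul_le_mul_of_nonneg_left h6 hS0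
    have h10 : (∏ l, (gr' j l - gr' i l + 2 * η)) * S.card ≤ (∏ l, (b l - a l)) * S.card + ε / 2 * S.card := by
      rw [← add_mul]
      refine mul_le_mul_of_nonneg_right ?_ hS0
      linarith
    linarith

end Pool.Agent.J4H75.PN
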