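import Mathlib

/-!
# Polynomials acting on sequences by the shift; a pigeonhole lemma
-/

set_option autoImplicit false

open Polynomial Finset

namespace Pool.Agent.J4H75.PN

/-- the shift operator -/
def shift (R : Type) [CommRing R] : (ℕ → R) →ₗ[R] (ℕ → R) where
  toFun f := fun n => f (n + 1)
  map_add' _ _ := rfl
  map_smul' _ _ := rfl

/-- a polynomial acts on a sequence by the shift -/
noncomputable def act {R : Type} [CommRing R] (P : R[X]) (f : ℕ → R) : ℕ → R := aeval (shift R) P f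

section
variable {R : Type} [CommRing R]

lemma shift_pow (j : ℕ) (f : ℕ → R) (n : ℕ) : ((shift R) ^ j) f n = f (n + j) := by
  induction j generalizing f n with
  | zero => simp
  | succ j ih =>
    rw [pow_succ, Module.End.mul_apply, ih]
    change f (n + j + 1) = _
    rw [Nat.add_assoc]

lemma act_apply (P : R[X]) (f : ℕ → R) (n : ℕ) {D : ℕ} (hD : P.natDegree ≤ D) :
    act P f n = ∑ j ∈ range (D + 1), P.coeff j * f (n + j) := by
  unfold act
  rw [aeval_eq_sum_range' (Nat.lt_succ_of_le hD), LinearMap.sum_apply, Finset.sum_apply]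
  refine Finset.sum_congr rfl fun j _ => ?_
  rw [LinearMap.smul_apply, Pi.smul_apply, shift_pow, smul_eq_mul]

lemma act_mul (P Q : R[X]) (f : ℕ → R) : act (P * Q) f = act P (act Q f) := by
  unfold act
  rw [map_mul, Module.End.mul_apply]

lemma act_add (P Q : R[X]) (f : ℕ → R) : act (P + Q) f = act P f + act Q f := by
  unfold act
  rw [map_add, LinearMap.add_apply]

lemma act_sub (P Q : R[X]) (f : ℕ → R) : act (P - Q) f = act P f - act Q f := by
  unfold act
  rw [map_sub, LinearMap.sub_apply]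

lemma act_C (c : R) (f : ℕ → R) : act (C c) f = c • f := by
  unfold act
  rw [aeval_C, Module.algebraMap_end_apply]

lemma act_zero' (f : ℕ → R) : act (0 : R[X]) f = 0 := by
  unfold act
  rw [map_zero, LinearMap.zero_apply]

lemma act_X (f : ℕ → R) (n : ℕ) : act (X : R[X]) f n = f (n + 1) := by
  unfold act
  rw [aeval_X]
  rfl

lemma act_add_seq (P : R[X]) (f g : ℕ → R) : act P (f + g) = act P f + act P g := by
  unfold act
  rw [map_add]

lemma act_sub_seq (P : R[X]) (f g : ℕ → R) : act P (f - g) = act P f - act P g := by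
  unfold act
  rw [map_sub]

lemma act_smul_seq (P : R[X]) (c : R) (f : ℕ → R) : act P (c • f) = c • act P f := by
  unfold act
  rw [map_smul]

lemma act_sum_seq {ι : Type} (s : Finset ι) (P : R[X]) (f : ι → ℕ → R) :
    act P (∑ i ∈ s, f i) = ∑ i ∈ s, act P (f i) := by
  unfold act
  rw [map_sum]

/-- the action on a geometric sequence -/
lemma act_geom (P : R[X]) (x c : R) (n : ℕ) : act P (fun n => c * x ^ n) n = P.eval x * (c * x ^ n) := by
  rw [act_apply P _ n le_rfl, eval_eq_sum_range, Finset.sum_mul]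
  refine Finset.sum_congr rfl fun j _ => ?_
  rw [pow_add]
  ring

/-- the action is local -/
lemma act_congr (P : R[X]) {f g : ℕ → R} {n : ℕ} (h : ∀ j ≤ P.natDegree, f (n + j) = g (n + j)) :
    act P f n = act P g n := by
  rw [act_apply P f n le_rfl, act_apply P g n le_rfl]
  refine Finset.sum_congr rfl fun j hj => ?_
  rw [h j (by rw [mem_range] at hj; omega)]

/-- change of rings -/
lemma act_map {S : Type} [CommRing S] (φ : R →+* S) (P : R[X]) (f : ℕ → R) (n : ℕ) :
    act (P.map φ) (fun i => φ (f i)) n = φ (act P f n) := by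
  rw [act_apply (P.map φ) _ n (natDegree_map_le (f := φ) (p := P)), act_apply P f n le_rfl, map_sum]
  refine Finset.sum_congr rfl fun j _ => ?_
  rw [coeff_map, map_mul]

/-- a multiple of a polynomial which annihilates -/
lemma act_mul_zero (U P : R[X]) (f : ℕ → R) (n D : ℕ) (hU : U.natDegree ≤ D)
    (h : ∀ i, n ≤ i → i ≤ n + D → act P f i = 0) : act (U * P) f n = 0 := by
  rw [act_mul, act_apply U _ n hU]
  refine Finset.sum_eq_zero fun j hj => ?_
  rw [mem_range] at hj
  rw [h (n + j) (by omega) (by omega), mul_zero]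

end

/-- size -/
lemma norm_act_le (P : ℂ[X]) (f : ℕ → ℂ) (n D : ℕ) (hD : P.natDegree ≤ D) (X F : ℝ) (hX : 0 ≤ X)
    (hP : ∀ j, ‖P.coeff j‖ ≤ X) (hf : ∀ j ≤ D, ‖f (n + j)‖ ≤ F) : ‖act P f n‖ ≤ (D + 1) * (X * F) := by
  rw [act_apply P f n hD]
  refine (norm_sum_le _ _).trans ?_
  have : ∀ j ∈ range (D + 1), ‖P.coeff j * f (n + j)‖ ≤ X * F := by
    intro j hj
    rw [mem_range] at hj
    rw [norm_mul]
    exact mul_le_mul (hP j) (hf j (by omega)) (norm_nonneg _) hX
  refine (Finset.sum_le_sum this).trans (le_of_eq ?_)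
  rw [Finset.sum_const, Finset.card_range, nsmul_eq_mul]
  push_cast
  ring

/-- pigeonhole: small values of linear forms at integer points -/
lemma pigeon {ι : Type} [Fintype ι] (D X : ℕ) (g : ι → Fin (D + 1) → ℝ) (F τ : ℝ) (hg : ∀ t j, |g t j| ≤ F)
    (hτ : 0 < τ) (hbox : (⌊2 * (D + 1) * X * F / τ⌋₊ + 1) ^ (Fintype.card ι) < (X + 1) ^ (D + 1)) :
    ∃ p : Fin (D + 1) → ℤ, p ≠ 0 ∧ (∀ j, |(p j : ℝ)| ≤ X) ∧ ∀ t, |∑ j, (p j : ℝ) * g t j| ≤ τ := by
  classical
  set B : ℕ := ⌊2 * (D + 1) * X * F / τ⌋₊ + 1 with hB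
  have hval : ∀ (v : Fin (D + 1) → Fin (X + 1)) t, |∑ j, ((v j : ℕ) : ℝ) * g t j| ≤ (D + 1) * X * F := by
    intro v t
    refine (Finset.abs_sum_le_sum_abs _ _).trans ?_
    have h1 : ∀ j ∈ (univ : Finset (Fin (D + 1))), |((v j : ℕ) : ℝ) * g t j| ≤ X * F := by
      intro j _
      rw [abs_mul, Nat.abs_cast]
      have h2 : ((v j : ℕ) : ℝ) ≤ X := by
        have := (v j).2
        exact_mod_cast (by omega : (v j : ℕ) ≤ X)
      exact mul_le_mul h2 (hg t j) (abs_nonneg _) (Nat.cast_nonneg _)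
    refine (Finset.sum_le_sum h1).trans (le_of_eq ?_)
    rw [Finset.sum_const, Finset.card_univ, Fintype.card_fin, nsmul_eq_mul]
    push_cast
    ring
  let φ : (Fin (D + 1) → Fin (X + 1)) → (ι → Fin B) := fun v t =>
    ⟨⌊(∑ j, ((v j : ℕ) : ℝ) * g t j + (D + 1) * X * F) / τ⌋₊, by
      rw [hB]
      refine Nat.lt_succ_of_le (Nat.floor_le_floor ?_)
      have h1 := (abs_le.1 (hval v t)).2
      exact div_le_div_of_nonneg_right (by linarith) hτ.le⟩
  have hcard : Fintype.card (ι → Fin B) < Fintype.card (Fin (D + 1) → Fin (X + 1)) := by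
    simp only [Fintype.card_fun, Fintype.card_fin]
    exact hbox
  obtain ⟨v, w, hvw, heq⟩ := Fintype.exists_ne_map_eq_of_card_lt φ hcard
  refine ⟨fun j => ((v j : ℕ) : ℤ) - ((w j : ℕ) : ℤ), ?_, ?_, ?_⟩
  · intro h0
    apply hvw
    funext j
    have := congrFun h0 j
    simp only [Pi.zero_apply] at this
    exact Fin.ext (by omega)
  · intro j
    have h1 := (v j).2
    have h2 := (w j).2
    have h3 : |((v j : ℕ) : ℤ) - ((w j : ℕ) : ℤ)| ≤ (X : ℤ) := by
      rw [abs_le]
      constructor <;> omega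
    exact_mod_cast h3
  · intro t
    have h1 := congrArg (fun z : Fin B => (z : ℕ)) (congrFun heq t)
    simp only [φ] at h1
    set a : ℝ := (∑ j, ((v j : ℕ) : ℝ) * g t j + (D + 1) * X * F) / τ with ha
    set b : ℝ := (∑ j, ((w j : ℕ) : ℝ) * g t j + (D + 1) * X * F) / τ with hb
    have ha0 : 0 ≤ a := div_nonneg (by have := (abs_le.1 (hval v t)).1; linarith) hτ.le
    have hb0 : 0 ≤ b := div_nonneg (by have := (abs_le.1 (hval w t)).1; linarith) hτ.le
    have h2 := Nat.floor_le ha0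
    have h3 := Nat.lt_floor_add_one a
    have h4 := Nat.floor_le hb0
    have h5 := Nat.lt_floor_add_one b
    rw [h1] at h2 h3
    have h6 : |a - b| ≤ 1 := by
      rw [abs_le]
      constructor <;> linarith
    have h7 : ∑ j, (((((v j : ℕ) : ℤ) - ((w j : ℕ) : ℤ) : ℤ)) : ℝ) * g t j = τ * (a - b) := by
      have e1 : ∑ j, (((((v j : ℕ) : ℤ) - ((w j : ℕ) : ℤ) : ℤ)) : ℝ) * g t j =
          ∑ j, ((v j : ℕ) : ℝ) * g t j - ∑ j, ((w j : ℕ) : ℝ) * g t j := by
        rw [← Finset.sum_sub_distrib]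
        refine Finset.sum_congr rfl fun j _ => ?_
        push_cast
        ring
      rw [e1, ha, hb]
      field_simp
      ring
    rw [h7, abs_mul, abs_of_pos hτ]
    nlinarith

end Pool.Agent.J4H75.PN
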