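import Pool.Agent.J4H75.PN.Deg

/-!
# Integer polynomials which make a recurrent sequence small
-/

set_option autoImplicit false

open Polynomial Finset Filter Topology

namespace Pool.Agent.J4H75.PN

/-- the growth constant of a recurrence -/
noncomputable def gr (χ : ℂ[X]) : ℝ := 1 + ∑ j ∈ range (χ.natDegree + 1), ‖χ.coeff j‖

lemma gr_ge (χ : ℂ[X]) : 1 ≤ gr χ := by
  unfold gr
  have : 0 ≤ ∑ j ∈ range (χ.natDegree + 1), ‖χ.coeff j‖ := Finset.sum_nonneg fun _ _ => norm_nonneg _
  linarith

/-- growth of a recurrent sequence -/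
lemma rec_growth (χ : ℂ[X]) (hχ : χ.Monic) (g : ℕ → ℂ) (τ : ℝ) (hτ : 0 ≤ τ) (hg : ∀ i, act χ g i = 0)
    (h0 : ∀ i < χ.natDegree, ‖g i‖ ≤ τ) : ∀ i, ‖g i‖ ≤ τ * gr χ ^ i := by
  intro i
  induction i using Nat.strong_induction_on with
  | _ i ih =>
    rcases Nat.lt_or_ge i χ.natDegree with h | h
    · exact (h0 i h).trans (le_mul_of_one_le_right hτ (one_le_pow₀ (gr_ge χ)))
    · obtain ⟨m, rfl⟩ := Nat.exists_eq_add_of_le h
      have h1 := hg m
      rw [act_apply χ g m le_rfl, Finset.sum_range_succ, hχ.coeff_natDegree, one_mul] at h1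
      have h2 : g (χ.natDegree + m) = -∑ j ∈ range χ.natDegree, χ.coeff j * g (m + j) := by
        rw [add_comm χ.natDegree m]
        linear_combination h1
      rw [h2, norm_neg]
      refine (norm_sum_le _ _).trans ?_
      have h3 : ∀ j ∈ range χ.natDegree, ‖χ.coeff j * g (m + j)‖ ≤
          ‖χ.coeff j‖ * (τ * gr χ ^ (χ.natDegree + m - 1)) := by
        intro j hj
        rw [mem_range] at hj
        rw [norm_mul]
        refine mul_le_mul_of_nonneg_left ((ih (m + j) (by omega)).trans ?_) (norm_nonneg _)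
        exact mul_le_mul_of_nonneg_left (pow_le_pow_right₀ (gr_ge χ) (by omega)) hτ
      refine (Finset.sum_le_sum h3).trans ?_
      rw [← Finset.sum_mul]
      have h4 : ∑ j ∈ range χ.natDegree, ‖χ.coeff j‖ ≤ gr χ := by
        unfold gr
        rw [Finset.sum_range_succ]
        have := norm_nonneg (χ.coeff χ.natDegree)
        linarith
      rcases Nat.eq_zero_or_pos (χ.natDegree) with h5 | h5
      · rw [h5]
        simp only [range_zero, sum_empty, zero_mul]
        have := gr_ge χ
        positivity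
      · have h6 : gr χ ^ (χ.natDegree + m) = gr χ * gr χ ^ (χ.natDegree + m - 1) := by
          rw [← pow_succ']
          congr 1
          omega
        rw [h6]
        have h7 : 0 ≤ τ * gr χ ^ (χ.natDegree + m - 1) := by
          have := gr_ge χ
          positivity
        nlinarith

/-- small values of a recurrent sequence -/
lemma approx (χ : ℂ[X]) (hχ : χ.Monic) (B ρ : ℝ) (hB : 0 ≤ B) (hρ : 0 < ρ) :
    ∃ (D : ℕ) (T₁ : ℝ), ∀ T : ℝ, T₁ ≤ T → ∀ f : ℕ → ℂ,
      (∀ i < χ.natDegree + D, ‖f i‖ ≤ Real.exp (B * T)) → (∀ i, act χ f i = 0) →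
      ∃ P : ℤ[X], P ≠ 0 ∧ P.natDegree ≤ D ∧ (∀ j, |((P.coeff j : ℤ) : ℝ)| ≤ Real.exp (ρ * T)) ∧
        ∀ i, ‖act (P.map (Int.castRingHom ℂ)) f i‖ ≤ 2 * Real.exp (-T) * gr χ ^ i := by
  set s := χ.natDegree with hs
  obtain ⟨m, hm⟩ := exists_nat_ge ((2 * s * (B + 1) + 1) / ρ)
  have hm' : 2 * s * (B + 1) + 1 ≤ ρ * m := by
    rw [div_le_iff₀ hρ] at hm
    linarith
  have hm1 : 1 ≤ m := by
    by_contra h
    have : m = 0 := by omega
    subst this
    have : (0:ℝ) ≤ 2 * s * (B + 1) := by positivity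
    push_cast at hm'
    linarith
  obtain ⟨D, hD⟩ : ∃ D, D = 2 * s + m - 1 := ⟨_, rfl⟩
  have hD1 : D + 1 = 2 * s + m := by omega
  refine ⟨D, max 0 (2 * s * Real.log (3 * (D + 1)) + 1), fun T hT f hf hrec => ?_⟩
  have hT0 : 0 ≤ T := (le_max_left _ _).trans hT
  have hT1 : 2 * s * Real.log (3 * (D + 1)) < T := by
    have := (le_max_right _ _).trans hT
    linarith
  set X : ℕ := ⌊Real.exp (ρ * T)⌋₊ with hX
  have hX1 : Real.exp (ρ * T) < (X : ℝ) + 1 := Nat.lt_floor_add_one _
  have hX2 : (X : ℝ) ≤ Real.exp (ρ * T) := Nat.floor_le (Real.exp_pos _).le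
  set F : ℝ := Real.exp (B * T) with hF
  set τ : ℝ := Real.exp (-T) with hτ
  have hτ0 : 0 < τ := Real.exp_pos _
  -- the linear forms
  let g : (Fin s ⊕ Fin s) → Fin (D + 1) → ℝ := fun t j =>
    Sum.elim (fun i : Fin s => (f ((i : ℕ) + (j : ℕ))).re) (fun i : Fin s => (f ((i : ℕ) + (j : ℕ))).im) t
  have hg : ∀ t j, |g t j| ≤ F := by
    rintro (i | i) j
    · exact (Complex.abs_re_le_norm _).trans (hf _ (by have := i.2; have := j.2; omega))
    · exact (Complex.abs_im_le_norm _).trans (hf _ (by have := i.2; have := j.2; omega))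
  have hbox : (⌊2 * (D + 1) * X * F / τ⌋₊ + 1) ^ (Fintype.card (Fin s ⊕ Fin s)) < (X + 1) ^ (D + 1) := by
    rw [Fintype.card_sum, Fintype.card_fin]
    have h1 : ((⌊2 * (D + 1) * X * F / τ⌋₊ : ℕ) : ℝ) + 1 ≤
        3 * (D + 1) * Real.exp ((B + 1) * T) * ((X : ℝ) + 1) := by
      have h31 : F / τ = Real.exp ((B + 1) * T) := by
        rw [hF, hτ, ← Real.exp_sub]
        congr 1
        ring
      have h2 : ((⌊2 * (D + 1) * X * F / τ⌋₊ : ℕ) : ℝ) ≤ 2 * (D + 1) * X * Real.exp ((B + 1) * T) := by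
        refine (Nat.floor_le (by positivity)).trans (le_of_eq ?_)
        rw [mul_div_assoc, h31]
      have h4 : 1 ≤ Real.exp ((B + 1) * T) := Real.one_le_exp (by positivity)
      have h5 : (0 : ℝ) ≤ X := Nat.cast_nonneg _
      have h6 : (0 : ℝ) ≤ D := Nat.cast_nonneg _
      have h7 : 1 ≤ (D + 1) * Real.exp ((B + 1) * T) * ((X : ℝ) + 1) := by
        have h8 : 1 ≤ ((D : ℝ) + 1) * Real.exp ((B + 1) * T) := by nlinarith
        nlinarith
      nlinarith [mul_nonneg h6 (Real.exp_pos ((B + 1) * T)).le, Real.exp_pos ((B + 1) * T)]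
    have h8 : (((⌊2 * (D + 1) * X * F / τ⌋₊ + 1) ^ (s + s) : ℕ) : ℝ) <
        (((X + 1) ^ (D + 1) : ℕ) : ℝ) := by
      push_cast
      have hXpos : (0:ℝ) < (X : ℝ) + 1 := by positivity
      calc ((⌊2 * (D + 1) * X * F / τ⌋₊ : ℝ) + 1) ^ (s + s)
          ≤ (3 * (D + 1) * Real.exp ((B + 1) * T) * ((X : ℝ) + 1)) ^ (s + s) :=
            pow_le_pow_left₀ (by positivity) h1 _
        _ = ((3 * (D + 1)) ^ (s + s) * Real.exp ((B + 1) * T) ^ (s + s)) * ((X : ℝ) + 1) ^ (s + s) := by
            rw [mul_pow, mul_pow]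
        _ < ((X : ℝ) + 1) ^ m * ((X : ℝ) + 1) ^ (s + s) := by
            refine mul_lt_mul_of_pos_right ?_ (by positivity)
            calc (3 * ((D : ℝ) + 1)) ^ (s + s) * Real.exp ((B + 1) * T) ^ (s + s)
                = Real.exp (2 * s * Real.log (3 * (D + 1)) + 2 * s * (B + 1) * T) := by
                  rw [Real.exp_add, ← Real.exp_nat_mul]
                  congr 1
                  · rw [show (2 : ℝ) * s * Real.log (3 * (D + 1)) = ((s + s : ℕ) : ℝ) * Real.log (3 * (D + 1)) by
                      push_cast; ring, Real.exp_nat_mul, Real.exp_log (by positivity)]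
                  · congr 1
                    push_cast
                    ring
              _ < Real.exp (ρ * m * T) := by
                  apply Real.exp_lt_exp.2
                  nlinarith
              _ = Real.exp (ρ * T) ^ m := by
                  rw [← Real.exp_nat_mul]
                  congr 1
                  ring
              _ ≤ ((X : ℝ) + 1) ^ m := pow_le_pow_left₀ (Real.exp_pos _).le hX1.le _
        _ = ((X : ℝ) + 1) ^ (D + 1) := by
            rw [← pow_add, hD1]
            congr 1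
            omega
    exact_mod_cast h8
  obtain ⟨p, hp0, hpX, hpτ⟩ := pigeon D X g F τ hg hτ0 hbox
  -- the polynomial
  set P : ℤ[X] := ∑ j : Fin (D + 1), C (p j) * Polynomial.X ^ (j : ℕ) with hP
  have hcoef : ∀ k, P.coeff k = if h : k < D + 1 then p ⟨k, h⟩ else 0 := by
    intro k
    rw [hP]
    simp only [Polynomial.finsetSum_coeff, Polynomial.coeff_C_mul, Polynomial.coeff_X_pow]
    by_cases h : k < D + 1
    · rw [dif_pos h, Finset.sum_eq_single ⟨k, h⟩]
      · simp
      · intro b _ hb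
        rw [if_neg (fun h2 => hb (Fin.ext h2.symm)), mul_zero]
      · intro h2
        exact absurd (Finset.mem_univ _) h2
    · rw [dif_neg h]
      refine Finset.sum_eq_zero fun i _ => ?_
      have := i.2
      rw [if_neg (by omega), mul_zero]
  have hPdeg : P.natDegree ≤ D := by
    rw [natDegree_le_iff_coeff_eq_zero]
    intro k hk
    rw [hcoef, dif_neg (by omega)]
  have hPdeg' : (P.map (Int.castRingHom ℂ)).natDegree ≤ D := natDegree_map_le.trans hPdeg
  refine ⟨P, ?_, hPdeg, ?_, ?_⟩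
  · intro h0
    apply hp0
    funext j
    have h1 := hcoef j
    rw [h0, coeff_zero, dif_pos j.2] at h1
    exact h1.symm
  · intro j
    rw [hcoef]
    split_ifs with h
    · exact (hpX _).trans hX2
    · simp [(Real.exp_pos _).le]
  · have hact : ∀ i, act (P.map (Int.castRingHom ℂ)) f i = ∑ j : Fin (D + 1), (p j : ℂ) * f (i + j) := by
      intro i
      rw [act_apply _ f i hPdeg', Finset.sum_range]
      refine Finset.sum_congr rfl fun j _ => ?_
      rw [coeff_map, hcoef, dif_pos j.2]
      rfl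
    apply rec_growth χ hχ
    · positivity
    · intro i
      rw [← act_mul, mul_comm, act_mul, act_apply _ _ i hPdeg']
      refine Finset.sum_eq_zero fun j _ => ?_
      rw [hrec, mul_zero]
    · intro i hi
      rw [hact]
      have h1 := hpτ (Sum.inl ⟨i, hi⟩)
      have h2 := hpτ (Sum.inr ⟨i, hi⟩)
      simp only [g, Sum.elim_inl, Sum.elim_inr] at h1 h2
      refine (Complex.norm_le_abs_re_add_abs_im _).trans ?_
      have h3 : (∑ j : Fin (D + 1), (p j : ℂ) * f (i + j)).re = ∑ j : Fin (D + 1), (p j : ℝ) * (f (i + j)).re := by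
        rw [Complex.re_sum]
        refine Finset.sum_congr rfl fun j _ => ?_
        simp
      have h4 : (∑ j : Fin (D + 1), (p j : ℂ) * f (i + j)).im = ∑ j : Fin (D + 1), (p j : ℝ) * (f (i + j)).im := by
        rw [Complex.im_sum]
        refine Finset.sum_congr rfl fun j _ => ?_
        simp
      rw [h3, h4]
      linarith

end Pool.Agent.J4H75.PN
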