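import Pool.Agent.J4H75.PN.Approx
import Pool.Agent.TH456.TM.Inst

/-!
# Recurrent sequences cannot stay exponentially close to the integers on long blocks
-/

set_option autoImplicit false

open Polynomial Finset Filter Topology

namespace Pool.Agent.J4H75.PN

open Pool.Agent.TH456.TM (MeasT)

/-- the polynomial annihilates the integers near the sequence -/
lemma annih (P : ℤ[X]) (D K : ℕ) (hD : P.natDegree ≤ D) (f : ℕ → ℂ) (b : ℕ → ℤ) (δ ρ T G : ℝ)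
    (hP : ∀ j, |((P.coeff j : ℤ) : ℝ)| ≤ Real.exp (ρ * T)) (hG : 1 ≤ G)
    (hPf : ∀ i, ‖act (P.map (Int.castRingHom ℂ)) f i‖ ≤ 2 * Real.exp (-T) * G ^ i)
    (hfb : ∀ i < K, ‖f i - b i‖ ≤ Real.exp (-(δ * T)))
    (hT : 2 * Real.exp (-T) * G ^ K + (D + 1) * (Real.exp (ρ * T) * Real.exp (-(δ * T))) < 1) :
    ∀ i, i + D < K → act P b i = 0 := by
  intro i hi
  have hD' : (P.map (Int.castRingHom ℂ)).natDegree ≤ D := natDegree_map_le.trans hD
  have h1 : ((act P b i : ℤ) : ℂ) = act (P.map (Int.castRingHom ℂ)) f i -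
      act (P.map (Int.castRingHom ℂ)) (fun i => f i - (b i : ℂ)) i := by
    have h2 : (fun i => f i - (b i : ℂ)) = f - (fun i => (Int.castRingHom ℂ) (b i)) := rfl
    rw [h2, act_sub_seq, Pi.sub_apply, act_map]
    simp
  have h3 : ‖act (P.map (Int.castRingHom ℂ)) (fun i => f i - (b i : ℂ)) i‖ ≤
      (D + 1) * (Real.exp (ρ * T) * Real.exp (-(δ * T))) := by
    refine norm_act_le _ _ i D hD' _ _ (Real.exp_pos _).le (fun j => ?_) (fun j hj => hfb _ (by omega))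
    rw [coeff_map, eq_intCast, Complex.norm_intCast]
    exact hP j
  have h4 : ‖((act P b i : ℤ) : ℂ)‖ < 1 := by
    rw [h1]
    refine (norm_sub_le _ _).trans_lt (lt_of_le_of_lt (add_le_add (hPf i) h3) (lt_of_le_of_lt ?_ hT))
    gcongr
    omega
  rw [Complex.norm_intCast] at h4
  have h5 : |act P b i| < 1 := by exact_mod_cast h4
  exact Int.abs_lt_one_iff.1 h5

/-- `x` has a transcendence measure; a recurrent sequence whose part at `x` does not vanish is not exponentially close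
to the integers on a long block -/
theorem core (x : ℂ) (hx : MeasT x) (χ : ℂ[X]) (hχ : χ.Monic) (E : ℕ) (L B δ c₀ : ℝ) (hL : 0 < L) (hB : 0 ≤ B)
    (hδ : 0 < δ) (hc₀ : 0 < c₀) :
    ∃ (K : ℕ) (T₀ : ℝ), ∀ T : ℝ, T₀ ≤ T → ∀ (f : ℕ → ℂ) (b : ℕ → ℤ) (Ψ : ℂ[X]) (γ : ℂ),
      Ψ.natDegree ≤ E → (∀ j, ‖Ψ.coeff j‖ ≤ L) →
      (∀ i < K, ‖f i‖ ≤ Real.exp (B * T)) → (∀ i, act χ f i = 0) →
      (∀ i < K, ‖f i - b i‖ ≤ Real.exp (-(δ * T))) →
      (∀ i, act Ψ f i = γ * x ^ i) → c₀ ≤ ‖γ‖ → False := by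
  set s := χ.natDegree with hs
  obtain ⟨k, T₁, h1⟩ := approx χ hχ B (δ / 2) hB (by positivity)
  obtain ⟨κ, c, hκ, hc, hmeas⟩ := hx k
  obtain ⟨ρ, hρ⟩ : ∃ ρ, ρ = min (δ / 2) (δ / (2 * (κ + 1))) := ⟨_, rfl⟩
  have hρ0 : 0 < ρ := by rw [hρ]; positivity
  have hρ1 : ρ ≤ δ / 2 := by rw [hρ]; exact min_le_left _ _
  have hρ2 : (κ + 1) * ρ ≤ δ / 2 := by
    have : ρ ≤ δ / (2 * (κ + 1)) := by rw [hρ]; exact min_le_right _ _
    have h2 : (κ + 1) * ρ ≤ (κ + 1) * (δ / (2 * (κ + 1))) := mul_le_mul_of_nonneg_left this (by linarith)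
    refine h2.trans (le_of_eq ?_)
    field_simp
  obtain ⟨D, T₂, h2⟩ := approx χ hχ B ρ hB hρ0
  obtain ⟨K, hK⟩ : ∃ K, K = (E + 1) + (k + 1) * D + k + D + s + 1 := ⟨_, rfl⟩
  set G := gr χ with hG
  have hG1 : 1 ≤ G := gr_ge χ
  -- the final constant
  obtain ⟨C₁, hC₁⟩ : ∃ C₁ : ℝ, C₁ = 2 ^ D * (D + 1) := ⟨_, rfl⟩
  have hC₁1 : 1 ≤ C₁ := by
    rw [hC₁]
    have : (1 : ℝ) ≤ 2 ^ D := one_le_pow₀ (by norm_num)
    have : (0 : ℝ) ≤ D := Nat.cast_nonneg _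
    nlinarith
  have hlim1 : ∀ D' : ℕ, ∀ ρ' : ℝ, ρ' ≤ δ / 2 → ∀ᶠ T : ℝ in atTop,
      2 * Real.exp (-T) * G ^ K + (D' + 1) * (Real.exp (ρ' * T) * Real.exp (-(δ * T))) < 1 := by
    intro D' ρ' hρ'
    have l1 : Tendsto (fun T : ℝ => 2 * Real.exp (-T) * G ^ K) atTop (𝓝 (2 * 0 * G ^ K)) :=
      ((Real.tendsto_exp_neg_atTop_nhds_zero).const_mul 2).mul_const _
    have l2 : Tendsto (fun T : ℝ => ((D' : ℝ) + 1) * (Real.exp (-(δ / 2 * T)))) atTop (𝓝 (((D' : ℝ) + 1) * 0)) := by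
      refine Tendsto.const_mul _ ?_
      have : Tendsto (fun T : ℝ => δ / 2 * T) atTop atTop := tendsto_id.const_mul_atTop (by positivity)
      exact Real.tendsto_exp_neg_atTop_nhds_zero.comp this
    have l3 := l1.add l2
    simp only [mul_zero, zero_mul, add_zero] at l3
    have l4 := l3.eventually_lt_const (show (0 : ℝ) < 1 by norm_num)
    filter_upwards [l4, eventually_ge_atTop (0 : ℝ)] with T hT hT0
    refine lt_of_le_of_lt ?_ hT
    have h3 : Real.exp (ρ' * T) * Real.exp (-(δ * T)) ≤ Real.exp (-(δ / 2 * T)) := by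
      rw [← Real.exp_add]
      apply Real.exp_le_exp.2
      nlinarith
    have : (0 : ℝ) ≤ (D' : ℝ) + 1 := by positivity
    nlinarith [mul_le_mul_of_nonneg_left h3 this]
  have hlim2 : ∀ᶠ T : ℝ in atTop,
      C₁ ^ κ * ((E + 1) * (L * ((k + 1) * C₁))) / c₀ * Real.exp (-(δ / 2 * T)) < c := by
    have l2 : Tendsto (fun T : ℝ => C₁ ^ κ * ((E + 1) * (L * ((k + 1) * C₁))) / c₀ * (Real.exp (-(δ / 2 * T)))) atTop
        (𝓝 (C₁ ^ κ * ((E + 1) * (L * ((k + 1) * C₁))) / c₀ * 0)) := by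
      refine Tendsto.const_mul _ ?_
      have : Tendsto (fun T : ℝ => δ / 2 * T) atTop atTop := tendsto_id.const_mul_atTop (by positivity)
      exact Real.tendsto_exp_neg_atTop_nhds_zero.comp this
    rw [mul_zero] at l2
    exact l2.eventually_lt_const hc
  have hall : ∀ᶠ T : ℝ in atTop, T₁ ≤ T ∧ T₂ ≤ T ∧ 0 ≤ T ∧
      (2 * Real.exp (-T) * G ^ K + (k + 1) * (Real.exp (δ / 2 * T) * Real.exp (-(δ * T))) < 1) ∧
      (2 * Real.exp (-T) * G ^ K + (D + 1) * (Real.exp (ρ * T) * Real.exp (-(δ * T))) < 1) ∧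
      C₁ ^ κ * ((E + 1) * (L * ((k + 1) * C₁))) / c₀ * Real.exp (-(δ / 2 * T)) < c := by
    filter_upwards [eventually_ge_atTop T₁, eventually_ge_atTop T₂, eventually_ge_atTop 0, hlim1 k (δ / 2) le_rfl,
      hlim1 D ρ hρ1, hlim2] with T a1 a2 a3 a4 a5 a6
    exact ⟨a1, a2, a3, a4, a5, a6⟩
  obtain ⟨T₀, hT₀⟩ := hall.exists_forall_of_atTop
  refine ⟨K, T₀, fun T hT f b Ψ γ hΨ hΨL hf hrec hfb hgeo hγ => ?_⟩
  obtain ⟨t1, t2, t3, t4, t5, t6⟩ := hT₀ T hT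
  obtain ⟨P, hP0, hPdeg, hPc, hPs⟩ := h1 T t1 f (fun i hi => hf i (by omega)) hrec
  obtain ⟨Q, hQ0, hQdeg, hQc, hQs⟩ := h2 T t2 f (fun i hi => hf i (by omega)) hrec
  have hPann := annih P k K hPdeg f b δ (δ / 2) T G hPc hG1 hPs hfb t4
  have hQann := annih Q D K hQdeg f b δ ρ T G hQc hG1 hQs hfb t5
  have hdeg : HasDeg b ((E + 1) + (k + 1) * D) k :=
    ⟨P, ⟨hP0, fun i hi => hPann i (by omega)⟩, hPdeg⟩
  obtain ⟨P₁, hP₁0, hP₁deg, hP₁ann, hP₁c⟩ := small b (E + 1) D k hdeg Q hQ0 (fun i hi => hQann i (by omega)) hQdeg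
    (Real.exp (ρ * T)) hQc
  rw [← hC₁] at hP₁c
  set H := C₁ * Real.exp (ρ * T) with hH
  have hH1 : 1 ≤ H := by
    have : 1 ≤ Real.exp (ρ * T) := Real.one_le_exp (by positivity)
    rw [hH]
    nlinarith
  have hm := hmeas P₁ hP₁0 hP₁deg H hH1 hP₁c
  set p₁ := P₁.map (Int.castRingHom ℂ) with hp₁
  have hp₁deg : p₁.natDegree ≤ k := natDegree_map_le.trans hP₁deg
  -- `P₁` makes the sequence small
  have hsm : ∀ i ≤ E, ‖act p₁ f i‖ ≤ (k + 1) * (H * Real.exp (-(δ * T))) := by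
    intro i hi
    have h5 : act p₁ f i = act p₁ (fun i => f i - (b i : ℂ)) i := by
      have h6 : (fun i => f i - (b i : ℂ)) = f - (fun i => (Int.castRingHom ℂ) (b i)) := rfl
      rw [h6, act_sub_seq, Pi.sub_apply, hp₁, act_map, hP₁ann i (by omega)]
      simp
    rw [h5]
    refine norm_act_le _ _ i k hp₁deg _ _ (by linarith) (fun j => ?_) (fun j hj => hfb _ (by omega))
    rw [hp₁, coeff_map, eq_intCast, Complex.norm_intCast]
    exact hP₁c j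
  have hfin : ‖act Ψ (act p₁ f) 0‖ ≤ (E + 1) * (L * ((k + 1) * (H * Real.exp (-(δ * T))))) := by
    refine norm_act_le Ψ _ 0 E hΨ L _ hL.le hΨL (fun j hj => ?_)
    rw [zero_add]
    exact hsm j hj
  have heq : act Ψ (act p₁ f) 0 = p₁.eval x * γ := by
    rw [← act_mul, mul_comm, act_mul]
    have : act Ψ f = fun i => γ * x ^ i := funext hgeo
    rw [this, act_geom]
    simp
  have haeval : aeval x P₁ = p₁.eval x := by
    rw [hp₁, eval_map, aeval_def]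
    rfl
  rw [heq, norm_mul] at hfin
  have h7 : ‖aeval x P₁‖ ≤ (E + 1) * (L * ((k + 1) * (H * Real.exp (-(δ * T))))) / c₀ := by
    rw [le_div_iff₀ hc₀, haeval]
    refine le_trans ?_ hfin
    exact mul_le_mul_of_nonneg_left hγ (norm_nonneg _)
  have h8 : c ≤ C₁ ^ κ * ((E + 1) * (L * ((k + 1) * C₁))) / c₀ * Real.exp (-(δ / 2 * T)) := by
    refine hm.trans ?_
    have hHκ : 0 ≤ H ^ κ := Real.rpow_nonneg (by linarith) _
    refine (mul_le_mul_of_nonneg_left h7 hHκ).trans ?_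
    have e1 : H ^ κ = C₁ ^ κ * Real.exp (κ * (ρ * T)) := by
      rw [hH, Real.mul_rpow (by linarith) (Real.exp_pos _).le, ← Real.exp_mul]
      congr 2
      ring
    rw [e1, hH]
    have e2 : C₁ ^ κ * Real.exp (κ * (ρ * T)) *
        ((E + 1) * (L * ((k + 1) * (C₁ * Real.exp (ρ * T) * Real.exp (-(δ * T))))) / c₀) =
        C₁ ^ κ * ((E + 1) * (L * ((k + 1) * C₁))) / c₀ *
          (Real.exp (κ * (ρ * T)) * Real.exp (ρ * T) * Real.exp (-(δ * T))) := by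
      ring
    rw [e2]
    refine mul_le_mul_of_nonneg_left ?_ (by positivity)
    rw [← Real.exp_add, ← Real.exp_add]
    apply Real.exp_le_exp.2
    nlinarith
  linarith

end Pool.Agent.J4H75.PN
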