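import Pool.Agent.J4H75.PN.Act

/-!
# Polynomials of minimal degree which annihilate a sequence of integers on a block
-/

set_option autoImplicit false

open Polynomial Finset

namespace Pool.Agent.J4H75.PN

/-- `P ≠ 0` annihilates the sequence `b` on `[0, N)` -/
def Ann (b : ℕ → ℤ) (N : ℕ) (P : ℤ[X]) : Prop := P ≠ 0 ∧ ∀ i < N, act P b i = 0

/-- there is a polynomial of degree `≤ r` which annihilates -/
def HasDeg (b : ℕ → ℤ) (N r : ℕ) : Prop := ∃ P, Ann b N P ∧ P.natDegree ≤ r

lemma HasDeg.mono {b : ℕ → ℤ} {N N' r r' : ℕ} (h : HasDeg b N' r) (hN : N ≤ N') (hr : r ≤ r') : HasDeg b N r' := by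
  obtain ⟨P, ⟨hP, h1⟩, h2⟩ := h
  exact ⟨P, ⟨hP, fun i hi => h1 i (by omega)⟩, h2.trans hr⟩

/-- coefficients of a factor -/
lemma height_factor (D : ℕ) (A B : ℤ[X]) (hA : A ≠ 0) (hB : B ≠ 0) (hD : (A * B).natDegree ≤ D)
    (H : ℝ) (hH : ∀ k, |(((A * B).coeff k : ℤ) : ℝ)| ≤ H) (k : ℕ) :
    |((A.coeff k : ℤ) : ℝ)| ≤ 2 ^ D * (D + 1) * H := by
  have hH0 : 0 ≤ H := (abs_nonneg _).trans (hH 0)
  have hAB := natDegree_mul hA hB
  have h1 : |((A.coeff k : ℤ) : ℝ)| = ‖(A.map (Int.castRingHom ℂ)).coeff k‖ := by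
    rw [coeff_map, eq_intCast, Complex.norm_intCast]
  have h2 := norm_coeff_le_choose_mul_mahlerMeasure_of_one_le_mahlerMeasure k
    (A.map (Int.castRingHom ℂ)) (B.map (Int.castRingHom ℂ)) (one_le_mahlerMeasure_of_ne_zero hB)
  rw [← Polynomial.map_mul] at h2
  have h3 : ((A * B).map (Int.castRingHom ℂ)).mahlerMeasure ≤ (D + 1) * H := by
    refine (mahlerMeasure_le_sum_norm_coeff _).trans ?_
    rw [sum_def]
    have h4 : ((A * B).map (Int.castRingHom ℂ)).support ⊆ range (D + 1) := by
      intro i hi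
      rw [Finset.mem_range]
      have h5 := le_natDegree_of_mem_supp i hi
      have h6 : ((A * B).map (Int.castRingHom ℂ)).natDegree ≤ (A * B).natDegree := natDegree_map_le
      omega
    calc ∑ n ∈ ((A * B).map (Int.castRingHom ℂ)).support, ‖((A * B).map (Int.castRingHom ℂ)).coeff n‖
        ≤ ∑ n ∈ range (D + 1), ‖((A * B).map (Int.castRingHom ℂ)).coeff n‖ :=
          Finset.sum_le_sum_of_subset_of_nonneg h4 fun _ _ _ => norm_nonneg _
      _ ≤ ∑ _n ∈ range (D + 1), H := by
          refine Finset.sum_le_sum fun n _ => ?_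
          rw [coeff_map, eq_intCast, Complex.norm_intCast]
          exact hH n
      _ = (D + 1) * H := by
          rw [Finset.sum_const, Finset.card_range, nsmul_eq_mul]
          push_cast
          ring
  have h5 : (((A.map (Int.castRingHom ℂ)).natDegree.choose k : ℕ) : ℝ) ≤ 2 ^ D := by
    have h6 : (A.map (Int.castRingHom ℂ)).natDegree ≤ D := natDegree_map_le.trans (by omega)
    calc (((A.map (Int.castRingHom ℂ)).natDegree.choose k : ℕ) : ℝ)
        ≤ ((2 ^ (A.map (Int.castRingHom ℂ)).natDegree : ℕ) : ℝ) := by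
          exact_mod_cast Nat.choose_le_two_pow _ _
      _ ≤ ((2 ^ D : ℕ) : ℝ) := by
          exact_mod_cast Nat.pow_le_pow_right (by norm_num) h6
      _ = 2 ^ D := by push_cast; ring
  rw [h1]
  refine h2.trans ?_
  calc _ ≤ (2 : ℝ) ^ D * ((D + 1) * H) := by
        refine mul_le_mul h5 h3 (mahlerMeasure_nonneg _) (by positivity)
    _ = _ := by ring

/-- two consecutive scales with the same minimal degree -/
lemma scales (b : ℕ → ℤ) (N₀ D k : ℕ) (h : HasDeg b (N₀ + (k + 1) * D) k) :
    ∃ s ≤ k, ∃ r ≤ k, HasDeg b (N₀ + (s + 1) * D) r ∧ ∀ r' < r, ¬ HasDeg b (N₀ + s * D) r' := by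
  classical
  by_contra hcon
  push Not at hcon
  -- no polynomial of degree `< t` annihilates on `[0, N₀ + t D)`
  have key : ∀ t ≤ k + 1, ∀ r < t, ¬ HasDeg b (N₀ + t * D) r := by
    intro t
    induction t with
    | zero => intro _ r hr; omega
    | succ t ih =>
      intro ht r hr hdeg
      have hmin : ∀ r' < t, ¬ HasDeg b (N₀ + t * D) r' := ih (by omega)
      have hrt : t ≤ r := by
        by_contra hlt
        exact hmin r (by omega) (hdeg.mono (by nlinarith) le_rfl)
      have : r = t := by omega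
      subst this
      obtain ⟨r', h1, h2⟩ := hcon r (by omega) r (by omega) hdeg
      exact hmin r' h1 h2
  exact key (k + 1) le_rfl k (by omega) h

/-- division: a polynomial of minimal degree divides -/
lemma dvd_of_min (b : ℕ → ℤ) (N D r : ℕ) (P Q : ℤ[X]) (hP : Ann b (N + D) P) (hPr : P.natDegree ≤ r)
    (hmin : ∀ r' < r, ¬ HasDeg b N r') (hQ : ∀ i < N, act Q b i = 0) (hQD : Q.natDegree ≤ D) :
    (P.map (Int.castRingHom ℚ)) ∣ (Q.map (Int.castRingHom ℚ)) := by
  classical
  have hPr' : P.natDegree = r := by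
    by_contra hne
    exact hmin P.natDegree (by omega) ⟨P, ⟨hP.1, fun i hi => hP.2 i (by omega)⟩, le_rfl⟩
  set φ := Int.castRingHom ℚ with hφ
  have hinj : Function.Injective φ := Int.cast_injective
  have hP0 : P.map φ ≠ 0 := (Polynomial.map_ne_zero_iff hinj).2 hP.1
  set U := Q.map φ / P.map φ with hU
  set S := Q.map φ % P.map φ with hS
  have hdiv : P.map φ * U + S = Q.map φ := EuclideanDomain.div_add_mod _ _
  have hUdeg : U.natDegree ≤ D := by
    rw [hU]
    refine (natDegree_le_natDegree (degree_div_le _ _)).trans ?_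
    rw [natDegree_map_eq_of_injective hinj]
    exact hQD
  -- the remainder annihilates
  have hSann : ∀ i < N, act S (fun n => (φ (b n))) i = 0 := by
    intro i hi
    have e1 : S = Q.map φ - U * P.map φ := by rw [← hdiv]; ring
    rw [e1, act_sub]
    have h1 : act (Q.map φ) (fun n => φ (b n)) i = 0 := by
      rw [act_map, hQ i hi, map_zero]
    have h2 : act (U * P.map φ) (fun n => φ (b n)) i = 0 := by
      refine act_mul_zero U (P.map φ) _ i D hUdeg fun l hl1 hl2 => ?_
      rw [act_map, hP.2 l (by omega), map_zero]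
    rw [Pi.sub_apply, h1, h2, sub_zero]
  have hS0 : S = 0 := by
    by_contra hne
    obtain ⟨c, hc, hcS⟩ := IsLocalization.integerNormalization_spec (nonZeroDivisors ℤ) S
    set S' := IsLocalization.integerNormalization (nonZeroDivisors ℤ) S with hS'
    have hc0 : c ≠ 0 := nonZeroDivisors.ne_zero hc
    have hS'map : S'.map φ = C (φ c) * S := by
      have : (algebraMap ℤ ℚ) = φ := rfl
      rw [← this, hcS]
      ext j
      simp
    have hS'0 : S' ≠ 0 := by
      intro h0
      rw [h0, Polynomial.map_zero] at hS'map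
      rcases mul_eq_zero.1 hS'map.symm with h | h
      · rw [C_eq_zero] at h
        exact hc0 (hinj (by rw [h, map_zero]))
      · exact hne h
    have hdeg : S'.natDegree < r := by
      have h1 : S'.natDegree = S.natDegree := by
        rw [← natDegree_map_eq_of_injective hinj S', hS'map, natDegree_C_mul]
        intro h
        exact hc0 (hinj (by rw [h, map_zero]))
      rw [h1, ← hPr', ← natDegree_map_eq_of_injective hinj P]
      exact natDegree_lt_natDegree hne (by
        rw [hS]
        exact EuclideanDomain.mod_lt _ hP0)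
    refine hmin _ hdeg ⟨S', ⟨hS'0, fun i hi => ?_⟩, le_rfl⟩
    apply hinj
    rw [← act_map, hS'map, act_mul, act_C, Pi.smul_apply, hSann i hi, smul_zero, map_zero]
  rw [← hdiv, hS0, add_zero]
  exact dvd_mul_right _ _

/-- the main step: a primitive polynomial of small degree and small height which annihilates -/
lemma small (b : ℕ → ℤ) (N₀ D k : ℕ) (h : HasDeg b (N₀ + (k + 1) * D) k) (Q : ℤ[X]) (hQ0 : Q ≠ 0)
    (hQ : ∀ i < N₀ + (k + 1) * D, act Q b i = 0) (hQD : Q.natDegree ≤ D) (X : ℝ)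
    (hX : ∀ j, |((Q.coeff j : ℤ) : ℝ)| ≤ X) :
    ∃ P : ℤ[X], P ≠ 0 ∧ P.natDegree ≤ k ∧ (∀ i < N₀, act P b i = 0) ∧
      ∀ j, |((P.coeff j : ℤ) : ℝ)| ≤ 2 ^ D * (D + 1) * X := by
  classical
  obtain ⟨s, hs, r, hr, ⟨P, hP, hPr⟩, hmin⟩ := scales b N₀ D k h
  have hle : N₀ + s * D ≤ N₀ + (k + 1) * D := by nlinarith
  have hdvd := dvd_of_min b (N₀ + s * D) D r P Q (by
    have e : N₀ + s * D + D = N₀ + (s + 1) * D := by ring
    rw [e]; exact hP) hPr hmin (fun i hi => hQ i (by omega)) hQD
  have hPc : P = C P.content * P.primPart := P.eq_C_content_mul_primPart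
  have hc0 : P.content ≠ 0 := content_eq_zero_iff.not.2 hP.1
  have hdvd2 : P.primPart ∣ Q := by
    rw [IsPrimitive.Int.dvd_iff_map_cast_dvd_map_cast _ _ P.isPrimitive_primPart]
    have h1 : (P.primPart.map (Int.castRingHom ℚ)) ∣ (P.map (Int.castRingHom ℚ)) :=
      Polynomial.map_dvd _ (by
        conv_rhs => rw [hPc]
        exact dvd_mul_left _ _)
    exact h1.trans hdvd
  obtain ⟨B, hB⟩ := hdvd2
  have hP'0 : P.primPart ≠ 0 := primPart_ne_zero _
  have hB0 : B ≠ 0 := by
    rintro rfl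
    rw [mul_zero] at hB
    exact hQ0 hB
  refine ⟨P.primPart, hP'0, ?_, fun i hi => ?_, fun j => ?_⟩
  · rw [natDegree_primPart]
    exact hPr.trans hr
  · have h1 := hP.2 i (by nlinarith)
    rw [hPc, act_mul, act_C, Pi.smul_apply, smul_eq_mul] at h1
    rcases mul_eq_zero.1 h1 with h2 | h2
    · exact absurd h2 hc0
    · exact h2
  · refine height_factor D P.primPart B hP'0 hB0 (by rw [← hB]; exact hQD) X (fun k => ?_) j
    rw [← hB]
    exact hX k

end Pool.Agent.J4H75.PN
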