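import Pool.Agent.TH456.TM.Inst
import Pool.Agent.H771R3.EN.WEYL

/-!
# Dilates of the powers of a number with a transcendence measure
-/

set_option autoImplicit false

open Polynomial Finset Filter Topology

namespace Pool.Agent.J4H75.PN

open Pool.Agent.TH456.TM (MeasT)
open Pool.Agent.H771R3.EN (weyl_expand weyl_sum_triv weyl_sum_good)

/-- three points in a short window are not close to each other modulo one -/
theorem three (x : ℝ) (hx1 : 1 < x) (hx : MeasT (x : ℂ)) (W : ℕ) :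
    ∃ (C : ℝ) (N₀ : ℝ), 0 < C ∧ ∀ N : ℝ, N₀ ≤ N → ∀ ξ : ℝ, Real.exp (-N) ≤ |ξ| → |ξ| ≤ Real.exp N →
      ∀ n₁ n₂ n₃ : ℕ, n₁ < n₂ → n₂ < n₃ → n₃ ≤ n₁ + W → (n₃ : ℝ) ≤ N → ∀ p q : ℤ,
      |ξ * x ^ n₂ - ξ * x ^ n₁ - p| < Real.exp (-(C * N)) →
      |ξ * x ^ n₃ - ξ * x ^ n₁ - q| < Real.exp (-(C * N)) → False := by
  obtain ⟨κ, c, hκ, hc, hm⟩ := hx W
  have hx0 : 0 < x := by linarith
  have hlog : 0 < Real.log x := Real.log_pos hx1
  obtain ⟨B, hB⟩ : ∃ B : ℝ, B = 2 + Real.log x := ⟨_, rfl⟩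
  have hB0 : 0 < B := by rw [hB]; linarith
  obtain ⟨C, hC⟩ : ∃ C : ℝ, C = κ * B + 2 := ⟨_, rfl⟩
  have hC0 : 0 < C := by rw [hC]; positivity
  -- eventual inequalities
  have h1 : ∀ᶠ N : ℝ in atTop, Real.exp (-N) < x - 1 :=
    Real.tendsto_exp_neg_atTop_nhds_zero.eventually_lt_const (by linarith)
  have h2 : ∀ᶠ N : ℝ in atTop, 2 * x ^ W * Real.exp (-N) < c := by
    have : Tendsto (fun N : ℝ => 2 * x ^ W * Real.exp (-N)) atTop (𝓝 (2 * x ^ W * 0)) :=
      Real.tendsto_exp_neg_atTop_nhds_zero.const_mul _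
    rw [mul_zero] at this
    exact this.eventually_lt_const hc
  obtain ⟨N₁, hN₁⟩ := h1.exists_forall_of_atTop
  obtain ⟨N₂, hN₂⟩ := h2.exists_forall_of_atTop
  refine ⟨C, max (max N₁ N₂) 2, hC0, fun N hN ξ hξ1 hξ2 n₁ n₂ n₃ h12 h23 hW hn p q hp hq => ?_⟩
  have hNN₁ := hN₁ N (((le_max_left _ _).trans (le_max_left _ _)).trans hN)
  have hNN₂ := hN₂ N (((le_max_right _ _).trans (le_max_left _ _)).trans hN)
  have hN2 : (2 : ℝ) ≤ N := (le_max_right _ _).trans hN
  obtain ⟨d, rfl⟩ : ∃ d, n₂ = n₁ + d := ⟨n₂ - n₁, by omega⟩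
  obtain ⟨e, rfl⟩ : ∃ e, n₃ = n₁ + e := ⟨n₃ - n₁, by omega⟩
  have hd : 1 ≤ d := by omega
  have hde : d < e := by omega
  have heW : e ≤ W := by omega
  set τ := Real.exp (-(C * N)) with hτ
  have hτ0 : 0 < τ := Real.exp_pos _
  have hξ0 : 0 < |ξ| := lt_of_lt_of_le (Real.exp_pos _) hξ1
  -- sizes of the powers
  have hxn : (1 : ℝ) ≤ x ^ n₁ := one_le_pow₀ hx1.le
  have hxd : x - 1 ≤ x ^ d - 1 := by
    have : x ^ 1 ≤ x ^ d := pow_le_pow_right₀ hx1.le hd
    rw [pow_one] at this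
    linarith
  have hxe : (0 : ℝ) < x ^ e - 1 := by
    have : (1 : ℝ) < x ^ e := one_lt_pow₀ hx1 (by omega)
    linarith
  have hxd0 : (0 : ℝ) < x ^ d - 1 := by linarith
  -- `p ≠ 0`
  have hp0 : p ≠ 0 := by
    rintro rfl
    have h3 : |ξ * x ^ (n₁ + d) - ξ * x ^ n₁ - ((0 : ℤ) : ℝ)| = |ξ| * (x ^ n₁ * (x ^ d - 1)) := by
      rw [Int.cast_zero, sub_zero, pow_add]
      rw [show ξ * (x ^ n₁ * x ^ d) - ξ * x ^ n₁ = ξ * (x ^ n₁ * (x ^ d - 1)) by ring, abs_mul,
        abs_of_pos (mul_pos (by linarith) hxd0)]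
    rw [h3] at hp
    have h4 : Real.exp (-N) * (x - 1) ≤ |ξ| * (x ^ n₁ * (x ^ d - 1)) := by
      refine mul_le_mul hξ1 ?_ (by linarith) hξ0.le
      nlinarith
    have h5 : τ ≤ Real.exp (-N) * Real.exp (-N) := by
      rw [hτ, ← Real.exp_add]
      apply Real.exp_le_exp.2
      have : 2 * N ≤ C * N := by
        refine mul_le_mul_of_nonneg_right ?_ (by linarith)
        rw [hC]
        have := mul_nonneg hκ hB0.le
        linarith
      linarith
    have h6 : Real.exp (-N) * Real.exp (-N) < Real.exp (-N) * (x - 1) :=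
      mul_lt_mul_of_pos_left hNN₁ (Real.exp_pos _)
    linarith
  -- the polynomial
  obtain ⟨P, hP⟩ : ∃ P : ℤ[X], P = Polynomial.C p * (X ^ e - 1) - Polynomial.C q * (X ^ d - 1) := ⟨_, rfl⟩
  have hcoef : ∀ j, P.coeff j = p * ((if j = e then 1 else 0) - (if j = 0 then 1 else 0)) -
      q * ((if j = d then 1 else 0) - (if j = 0 then 1 else 0)) := by
    intro j
    rw [hP, coeff_sub, coeff_C_mul, coeff_C_mul, coeff_sub, coeff_sub, coeff_X_pow, coeff_X_pow,
      coeff_one]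
  have hP0 : P ≠ 0 := by
    intro h0
    have h7 := hcoef e
    rw [h0, coeff_zero, if_pos rfl, if_neg (by omega : e ≠ 0), if_neg (by omega : e ≠ d)] at h7
    simp at h7
    exact hp0 h7.symm
  have hdeg : P.natDegree ≤ W := by
    rw [natDegree_le_iff_coeff_eq_zero]
    intro j hj
    rw [hcoef, if_neg (by omega), if_neg (by omega), if_neg (by omega)]
    ring
  -- height
  have hsize : ∀ (k : ℕ) (r : ℤ), ((n₁ + k : ℕ) : ℝ) ≤ N → |ξ * x ^ (n₁ + k) - ξ * x ^ n₁ - r| < τ →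
      |(r : ℝ)| ≤ Real.exp (B * N) / 2 := by
    intro k r hk hr
    have h8 : |(r : ℝ)| ≤ |ξ * x ^ (n₁ + k) - ξ * x ^ n₁ - r| + |ξ * x ^ (n₁ + k)| + |ξ * x ^ n₁| := by
      have e1 : (r : ℝ) = -(ξ * x ^ (n₁ + k) - ξ * x ^ n₁ - r) + ξ * x ^ (n₁ + k) + -(ξ * x ^ n₁) := by
        ring
      calc |(r : ℝ)| = |-(ξ * x ^ (n₁ + k) - ξ * x ^ n₁ - r) + ξ * x ^ (n₁ + k) + -(ξ * x ^ n₁)| := by
            rw [← e1]
        _ ≤ |-(ξ * x ^ (n₁ + k) - ξ * x ^ n₁ - r)| + |ξ * x ^ (n₁ + k)| + |-(ξ * x ^ n₁)| :=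
            abs_add_three _ _ _
        _ = _ := by rw [abs_neg, abs_neg]
    have h9 : ∀ i : ℕ, (i : ℝ) ≤ N → |ξ * x ^ i| ≤ Real.exp ((1 + Real.log x) * N) := by
      intro i hi
      rw [abs_mul, abs_of_pos (pow_pos hx0 i)]
      have h10 : x ^ i ≤ Real.exp (Real.log x * N) := by
        calc x ^ i = Real.exp (Real.log x * i) := by
              rw [mul_comm, Real.exp_nat_mul, Real.exp_log hx0]
          _ ≤ _ := Real.exp_le_exp.2 (mul_le_mul_of_nonneg_left hi hlog.le)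
      calc |ξ| * x ^ i ≤ Real.exp N * Real.exp (Real.log x * N) :=
            mul_le_mul hξ2 h10 (by positivity) (Real.exp_pos _).le
        _ = _ := by rw [← Real.exp_add]; congr 1; ring
    have h11 := h9 (n₁ + k) hk
    have h12 := h9 n₁ (by push_cast at hk; have : (0 : ℝ) ≤ k := Nat.cast_nonneg _; linarith)
    have h13 : τ ≤ 1 := by
      rw [hτ]
      apply Real.exp_le_one_iff.2
      have := mul_nonneg hC0.le (by linarith : (0 : ℝ) ≤ N)
      linarith
    have h14 : (1 : ℝ) ≤ Real.exp ((1 + Real.log x) * N) := Real.one_le_exp (by positivity)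
    have h15 : 6 * Real.exp ((1 + Real.log x) * N) ≤ Real.exp (B * N) := by
      have e2 : Real.exp (B * N) = Real.exp N * Real.exp ((1 + Real.log x) * N) := by
        rw [← Real.exp_add, hB]; congr 1; ring
      rw [e2]
      refine mul_le_mul_of_nonneg_right ?_ (Real.exp_pos _).le
      have h16 : Real.exp 2 ≤ Real.exp N := Real.exp_le_exp.2 hN2
      have h17 : (2.7 : ℝ) ^ 2 ≤ Real.exp 2 := by
        have : Real.exp 2 = Real.exp 1 ^ 2 := by rw [← Real.exp_nat_mul]; norm_num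
        rw [this]
        exact pow_le_pow_left₀ (by norm_num) (by linarith [Real.exp_one_gt_d9]) 2
      norm_num at h17
      linarith
    linarith
  have hpB := hsize d p (by
    have : ((n₁ + d : ℕ) : ℝ) ≤ ((n₁ + e : ℕ) : ℝ) := by exact_mod_cast (by omega : n₁ + d ≤ n₁ + e)
    linarith) hp
  have hqB := hsize e q hn hq
  have hheight : ∀ j, |(P.coeff j : ℝ)| ≤ Real.exp (B * N) := by
    intro j
    rw [hcoef]
    push_cast
    have h18 : |(p : ℝ) * ((if j = e then 1 else 0) - (if j = 0 then 1 else 0))| ≤ |(p : ℝ)| := by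
      rw [abs_mul]
      refine mul_le_of_le_one_right (abs_nonneg _) ?_
      split_ifs <;> norm_num
    have h19 : |(q : ℝ) * ((if j = d then 1 else 0) - (if j = 0 then 1 else 0))| ≤ |(q : ℝ)| := by
      rw [abs_mul]
      refine mul_le_of_le_one_right (abs_nonneg _) ?_
      split_ifs <;> norm_num
    have h20 := abs_sub ((p : ℝ) * ((if j = e then 1 else 0) - (if j = 0 then 1 else 0)))
      ((q : ℝ) * ((if j = d then 1 else 0) - (if j = 0 then 1 else 0)))
    linarith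
  -- the value
  have hval : ‖aeval (x : ℂ) P‖ ≤ 2 * x ^ W * τ := by
    have e3 : aeval (x : ℂ) P = (((p : ℝ) * (x ^ e - 1) - q * (x ^ d - 1) : ℝ) : ℂ) := by
      rw [hP]
      simp
    rw [e3, Complex.norm_real, Real.norm_eq_abs]
    have e4 : (p : ℝ) * (x ^ e - 1) - q * (x ^ d - 1) =
        -(ξ * x ^ (n₁ + d) - ξ * x ^ n₁ - p) * (x ^ e - 1) +
          (ξ * x ^ (n₁ + e) - ξ * x ^ n₁ - q) * (x ^ d - 1) := by
      rw [pow_add, pow_add]; ring
    rw [e4]
    refine (abs_add_le _ _).trans ?_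
    rw [abs_mul, abs_mul, abs_neg, abs_of_pos hxe, abs_of_pos hxd0]
    have h21 : x ^ e - 1 ≤ x ^ W := by
      have := pow_le_pow_right₀ hx1.le heW
      linarith
    have h22 : x ^ d - 1 ≤ x ^ W := by
      have := pow_le_pow_right₀ hx1.le (by omega : d ≤ W)
      linarith
    have h23 := mul_le_mul hp.le h21 hxe.le hτ0.le
    have h24 := mul_le_mul hq.le h22 hxd0.le hτ0.le
    linarith
  have hfin := hm P hP0 hdeg (Real.exp (B * N)) (Real.one_le_exp (by positivity)) hheight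
  have h25 : Real.exp (B * N) ^ κ = Real.exp (κ * B * N) := by
    rw [← Real.exp_mul]; congr 1; ring
  rw [h25] at hfin
  have h26 : Real.exp (κ * B * N) * ‖aeval (x : ℂ) P‖ ≤ 2 * x ^ W * Real.exp (-N) := by
    calc Real.exp (κ * B * N) * ‖aeval (x : ℂ) P‖ ≤ Real.exp (κ * B * N) * (2 * x ^ W * τ) :=
          mul_le_mul_of_nonneg_left hval (Real.exp_pos _).le
      _ = 2 * x ^ W * (Real.exp (κ * B * N) * τ) := by ring
      _ ≤ 2 * x ^ W * Real.exp (-N) := by
          refine mul_le_mul_of_nonneg_left ?_ (by positivity)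
          rw [hτ, ← Real.exp_add]
          apply Real.exp_le_exp.2
          rw [hC]
          nlinarith
  linarith

/-- the number of elements of a set without three elements in a window -/
lemma card_window (W M N : ℕ) (s : Finset ℕ) (hs : ∀ n ∈ s, M ≤ n ∧ n ≤ M + N)
    (h : ∀ n₁ ∈ s, ∀ n₂ ∈ s, ∀ n₃ ∈ s, n₁ < n₂ → n₂ < n₃ → n₃ ≤ n₁ + W → False) :
    s.card ≤ 2 * (N / (W + 1) + 1) := by
  have h1 : s.card ≤ 2 * (s.image (fun n => (n - M) / (W + 1))).card := by
    refine Finset.card_le_mul_card_image s 2 fun b _ => ?_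
    by_contra hcon
    push Not at hcon
    obtain ⟨t, ht, htc⟩ := Finset.exists_subset_card_eq (show 3 ≤ _ from hcon)
    obtain ⟨a₁, a₂, a₃, h12, h23, rfl⟩ : ∃ a₁ a₂ a₃ : ℕ, a₁ < a₂ ∧ a₂ < a₃ ∧ t = {a₁, a₂, a₃} := by
      set f := t.orderEmbOfFin htc with hf
      refine ⟨f 0, f 1, f 2, by simp [f], by simp [f], ?_⟩
      have := t.image_orderEmbOfFin_univ htc
      rw [← this]
      ext z
      simp only [mem_image, mem_univ, true_and, Fin.exists_fin_succ, mem_insert, mem_singleton]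
      simp only [hf]
      constructor
      · rintro (h | h | h | h)
        · exact Or.inl h.symm
        · exact Or.inr (Or.inl h.symm)
        · exact Or.inr (Or.inr h.symm)
        · obtain ⟨i, _⟩ := h; exact i.elim0
      · rintro (h | h | h)
        · exact Or.inl h.symm
        · exact Or.inr (Or.inl h.symm)
        · exact Or.inr (Or.inr (Or.inl h.symm))
    have m1 := mem_filter.1 (ht (by simp : a₁ ∈ ({a₁, a₂, a₃} : Finset ℕ)))
    have m2 := mem_filter.1 (ht (by simp : a₂ ∈ ({a₁, a₂, a₃} : Finset ℕ)))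
    have m3 := mem_filter.1 (ht (by simp : a₃ ∈ ({a₁, a₂, a₃} : Finset ℕ)))
    refine h a₁ m1.1 a₂ m2.1 a₃ m3.1 h12 h23 ?_
    have e1 := Nat.div_add_mod (a₁ - M) (W + 1)
    have e3 := Nat.div_add_mod (a₃ - M) (W + 1)
    have e4 := Nat.mod_lt (a₃ - M) (show 0 < W + 1 by omega)
    rw [m1.2] at e1
    rw [m3.2] at e3
    have := hs a₁ m1.1
    have := hs a₃ m3.1
    omega
  refine h1.trans (Nat.mul_le_mul_left 2 ?_)
  have h2 : s.image (fun n => (n - M) / (W + 1)) ⊆ range (N / (W + 1) + 1) := by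
    intro b hb
    obtain ⟨n, hn, rfl⟩ := mem_image.1 hb
    rw [mem_range]
    refine Nat.lt_succ_of_le (Nat.div_le_div_right ?_)
    have := hs n hn
    omega
  simpa using card_le_card h2

end Pool.Agent.J4H75.PN
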