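import Pool.Agent.J4H75.PN.Dilate
import Pool.Agent.J4H75.PN.UBox

/-!
# Integral dilates of the powers of a number with a transcendence measure
-/

set_option autoImplicit false

open Polynomial Finset Filter Topology

namespace Pool.Agent.J4H75.PN

open Pool.Agent.TH456.TM (MeasT)
open Pool.Agent.H771R3.EN (weyl_sum_triv weyl_sum_good)

lemma ee_nat (j : ℕ) (t : ℝ) : ee (j * t) = Complex.exp (2 * Real.pi * Complex.I * (t : ℂ)) ^ j := by
  rw [ee, ← Complex.exp_nat_mul]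
  congr 1
  push_cast
  ring

lemma conj_ee (t : ℝ) : (starRingEnd ℂ) (ee t) = ee (-t) := by
  rw [ee, ee, ← Complex.exp_conj]
  congr 1
  simp only [map_mul, Complex.conj_ofReal, Complex.conj_I, map_ofNat]
  push_cast
  ring

lemma Ioc_map (A : ℤ) (H : ℕ) (f : ℤ → ℝ) :
    ∑ h ∈ Ioc A (A + H), f h = ∑ j ∈ Icc 1 H, f (A + (j : ℕ)) := by
  symm
  refine Finset.sum_bij (fun j _ => A + (j : ℤ)) ?_ ?_ ?_ ?_
  · intro j hj
    rw [mem_Icc] at hj
    rw [mem_Ioc]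
    omega
  · intro a _ b _ h
    have : (a : ℤ) = b := by linarith
    exact_mod_cast this
  · intro h hh
    rw [mem_Ioc] at hh
    refine ⟨(h - A).toNat, ?_, ?_⟩
    · rw [mem_Icc]; omega
    · omega
  · intro j _
    rfl

/-- mean square over an interval of integers -/
lemma msq (u : ℕ → ℝ) (S : Finset ℕ) (A : ℤ) (H : ℕ) (ψ b : ℝ) (hψ : 0 < ψ)
    (hb : ∀ m ∈ S, ∀ B ⊆ S, (∀ n ∈ B, ∃ j : ℤ, |u n - u m - j| < ψ) → (B.card : ℝ) ≤ b) :
    ∑ h ∈ Ioc A (A + H), ‖∑ n ∈ S, ee (h * u n)‖ ^ 2 ≤ S.card * (b * H + S.card * (1 / (2 * ψ))) := by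
  classical
  rw [Ioc_map A H (fun h => ‖∑ n ∈ S, ee (h * u n)‖ ^ 2)]
  have h1 : ∀ j : ℕ, ((‖∑ n ∈ S, ee (((A + (j : ℕ) : ℤ) : ℝ) * u n)‖ ^ 2 : ℝ) : ℂ) =
      ∑ m ∈ S, ∑ n ∈ S, ee (A * (u n - u m)) *
        Complex.exp (2 * Real.pi * Complex.I * ((u n - u m : ℝ) : ℂ)) ^ j := by
    intro j
    rw [Complex.ofReal_pow, ← Complex.conj_mul', map_sum, Finset.sum_mul_sum]
    refine sum_congr rfl fun m _ => sum_congr rfl fun n _ => ?_
    rw [conj_ee, ← ee_add, ← ee_nat, ← ee_add]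
    congr 1
    push_cast
    ring
  have h2 : ((∑ j ∈ Icc 1 H, ‖∑ n ∈ S, ee (((A + (j : ℕ) : ℤ) : ℝ) * u n)‖ ^ 2 : ℝ) : ℂ) =
      ∑ m ∈ S, ∑ n ∈ S, ee (A * (u n - u m)) * ∑ j ∈ Icc 1 H,
        Complex.exp (2 * Real.pi * Complex.I * ((u n - u m : ℝ) : ℂ)) ^ j := by
    rw [Complex.ofReal_sum, sum_congr rfl fun j _ => h1 j, sum_comm]
    refine sum_congr rfl fun m _ => ?_
    rw [sum_comm]
    refine sum_congr rfl fun n _ => ?_
    rw [Finset.mul_sum]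
  have h3 := congrArg norm h2
  rw [Complex.norm_real, Real.norm_of_nonneg (sum_nonneg fun h _ => by positivity)] at h3
  rw [h3]
  refine (norm_sum_le _ _).trans ?_
  have hrow : ∀ m ∈ S, ‖∑ n ∈ S, ee (A * (u n - u m)) * ∑ j ∈ Icc 1 H,
        Complex.exp (2 * Real.pi * Complex.I * ((u n - u m : ℝ) : ℂ)) ^ j‖ ≤
      b * H + S.card * (1 / (2 * ψ)) := by
    intro m hm
    refine (norm_sum_le _ _).trans ?_
    set B := S.filter (fun n => ∃ j : ℤ, |u n - u m - j| < ψ) with hB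
    have hterm : ∀ n ∈ S, ‖ee (A * (u n - u m)) * ∑ j ∈ Icc 1 H,
        Complex.exp (2 * Real.pi * Complex.I * ((u n - u m : ℝ) : ℂ)) ^ j‖ ≤
        (if n ∈ B then (H : ℝ) else 0) + 1 / (2 * ψ) := by
      intro n hn
      rw [norm_mul, norm_ee, one_mul]
      by_cases hnB : n ∈ B
      · rw [if_pos hnB]
        have h1 := weyl_sum_triv (u n - u m) H
        have h2 : 0 ≤ 1 / (2 * ψ) := by positivity
        linarith
      · rw [if_neg hnB, zero_add]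
        refine weyl_sum_good _ ψ H hψ fun b => ?_
        by_contra hcon
        push Not at hcon
        apply hnB
        rw [hB, mem_filter]
        exact ⟨hn, b, hcon⟩
    refine (sum_le_sum hterm).trans ?_
    rw [sum_add_distrib, sum_const, nsmul_eq_mul]
    refine add_le_add_left ?_ _
    rw [← sum_filter]
    have h4 : S.filter (fun n => n ∈ B) = B := by
      ext n
      simp only [mem_filter, hB]
      tauto
    rw [h4, sum_const, nsmul_eq_mul]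
    refine mul_le_mul_of_nonneg_right (hb m hm B (filter_subset _ _) fun n hn => ?_) (Nat.cast_nonneg _)
    rw [hB, mem_filter] at hn
    exact hn.2
  refine (sum_le_sum hrow).trans (le_of_eq ?_)
  rw [sum_const, nsmul_eq_mul]

/-- few returns -/
theorem row (x : ℝ) (hx1 : 1 < x) (hx : MeasT (x : ℂ)) (ε : ℝ) (hε : 0 < ε) :
    ∃ (C T₀ : ℝ) (N₀ : ℕ), 0 < C ∧ ∀ T : ℝ, T₀ ≤ T → ∀ ξ : ℝ, Real.exp (-T) ≤ |ξ| → |ξ| ≤ Real.exp T →
      ∀ M N : ℕ, N₀ ≤ N → (M : ℝ) + N ≤ T → ∀ m ∈ Ico M (M + N), ∀ B ⊆ Ico M (M + N),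
        (∀ n ∈ B, ∃ j : ℤ, |ξ * x ^ n - ξ * x ^ m - j| < Real.exp (-(C * T))) → (B.card : ℝ) ≤ ε * N := by
  obtain ⟨W, hW⟩ := exists_nat_gt (4 / ε)
  obtain ⟨C, T₀, hC, h⟩ := three x hx1 hx W
  refine ⟨C + 1, max T₀ 1, W, by linarith, fun T hT ξ hξ1 hξ2 M N hN hMN m _ B hB hBn => ?_⟩
  have hT0 : T₀ ≤ T := (le_max_left _ _).trans hT
  have hT1 : 1 ≤ T := (le_max_right _ _).trans hT
  have hsmall : 2 * Real.exp (-((C + 1) * T)) ≤ Real.exp (-(C * T)) := by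
    have e1 : Real.exp (-((C + 1) * T)) = Real.exp (-T) * Real.exp (-(C * T)) := by
      rw [← Real.exp_add]; congr 1; ring
    have e2 : Real.exp (-T) ≤ Real.exp (-1) := Real.exp_le_exp.2 (by linarith)
    have e3 : Real.exp (-1) ≤ 1 / 2 := by
      rw [Real.exp_neg, ← one_div]
      exact one_div_le_one_div_of_le (by norm_num) (by linarith [Real.exp_one_gt_d9])
    rw [e1]
    nlinarith [Real.exp_pos (-(C * T))]
  have hcard := card_window W M N B (fun n hn => by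
    have := mem_Ico.1 (hB hn)
    omega) (by
    intro n₁ h1 n₂ h2 n₃ h3 h12 h23 hwin
    obtain ⟨j₁, hj₁⟩ := hBn n₁ h1
    obtain ⟨j₂, hj₂⟩ := hBn n₂ h2
    obtain ⟨j₃, hj₃⟩ := hBn n₃ h3
    have hn3 : (n₃ : ℝ) ≤ T := by
      have : (n₃ : ℝ) ≤ M + N := by
        have := (mem_Ico.1 (hB h3)).2
        exact_mod_cast this.le
      linarith
    refine h T hT0 ξ hξ1 hξ2 n₁ n₂ n₃ h12 h23 hwin hn3 (j₂ - j₁) (j₃ - j₁) ?_ ?_
    · refine lt_of_lt_of_le ?_ hsmall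
      push_cast
      rw [abs_lt] at *
      constructor <;> linarith [hj₁.1, hj₁.2, hj₂.1, hj₂.2]
    · refine lt_of_lt_of_le ?_ hsmall
      push_cast
      rw [abs_lt] at *
      constructor <;> linarith [hj₁.1, hj₁.2, hj₃.1, hj₃.2])
  have h1 : (B.card : ℝ) ≤ 2 * ((N : ℝ) / (W + 1) + 1) := by
    have h2 : (B.card : ℝ) ≤ ((2 * (N / (W + 1) + 1) : ℕ) : ℝ) := by exact_mod_cast hcard
    refine h2.trans ?_
    push_cast
    have h3 : ((N / (W + 1) : ℕ) : ℝ) ≤ (N : ℝ) / ((W + 1 : ℕ) : ℝ) := Nat.cast_div_le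
    push_cast at h3
    linarith
  have hWN : (W : ℝ) ≤ N := by exact_mod_cast hN
  rw [div_lt_iff₀ hε] at hW
  have h4 : (N : ℝ) / (W + 1) ≤ ε / 4 * N := by
    rw [div_le_iff₀ (by positivity)]
    have : (0 : ℝ) ≤ N := Nat.cast_nonneg _
    nlinarith
  nlinarith

/-- the mean square of the exponential sums -/
theorem msq_pow (x : ℝ) (hx1 : 1 < x) (hx : MeasT (x : ℂ)) (ε : ℝ) (hε : 0 < ε) :
    ∃ (C T₀ : ℝ) (N₀ : ℕ), 0 < C ∧ ∀ T : ℝ, T₀ ≤ T → ∀ ξ : ℝ, Real.exp (-T) ≤ |ξ| → |ξ| ≤ Real.exp T →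
      ∀ M N : ℕ, N₀ ≤ N → (M : ℝ) + N ≤ T → ∀ (A : ℤ) (H : ℕ), Real.exp (C * T) ≤ H →
        ∑ h ∈ Ioc A (A + H), ‖∑ n ∈ Ico M (M + N), ee (h * (ξ * x ^ n))‖ ^ 2 ≤ ε * N ^ 2 * H := by
  obtain ⟨C, T₀, N₀, hC, h⟩ := row x hx1 hx (ε / 2) (by positivity)
  refine ⟨C + 1, max T₀ (Real.log (1 / ε)), N₀, by linarith, fun T hT ξ hξ1 hξ2 M N hN hMN A H hH => ?_⟩
  have hT0 : T₀ ≤ T := (le_max_left _ _).trans hT
  have hT1 : 1 / ε ≤ Real.exp T := by
    have := Real.exp_le_exp.2 ((le_max_right _ _).trans hT)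
    rwa [Real.exp_log (by positivity)] at this
  have h1 := msq (fun n => ξ * x ^ n) (Ico M (M + N)) A H (Real.exp (-(C * T))) (ε / 2 * N) (Real.exp_pos _)
    (h T hT0 ξ hξ1 hξ2 M N hN hMN)
  refine h1.trans ?_
  rw [Nat.card_Ico, Nat.add_sub_cancel_left]
  have h2 : 1 / (2 * Real.exp (-(C * T))) ≤ ε / 2 * H := by
    have e1 : 1 / (2 * Real.exp (-(C * T))) = Real.exp (C * T) / 2 := by
      rw [Real.exp_neg]; field_simp
    have e2 : Real.exp ((C + 1) * T) = Real.exp (C * T) * Real.exp T := by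
      rw [← Real.exp_add]; congr 1; ring
    rw [e2] at hH
    rw [e1]
    rw [div_le_iff₀ hε] at hT1
    have e3 : Real.exp (C * T) * 1 ≤ Real.exp (C * T) * (Real.exp T * ε) :=
      mul_le_mul_of_nonneg_left hT1 (Real.exp_pos _).le
    have e4 : Real.exp (C * T) * Real.exp T * ε ≤ H * ε := mul_le_mul_of_nonneg_right hH hε.le
    linarith
  have hN0 : (0 : ℝ) ≤ N := Nat.cast_nonneg _
  calc (N : ℝ) * (ε / 2 * N * H + N * (1 / (2 * Real.exp (-(C * T))))) ≤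
      N * (ε / 2 * N * H + N * (ε / 2 * H)) := by gcongr
    _ = _ := by ring

/-- a number with a transcendence measure is not a root -/
lemma MeasT.ne {x : ℂ} (hx : MeasT x) (P : ℤ[X]) (hP : P ≠ 0) : aeval x P ≠ 0 := by
  obtain ⟨κ, c, hκ, hc, h⟩ := hx P.natDegree
  obtain ⟨H, hH⟩ : ∃ H : ℝ, H = 1 + ∑ j ∈ range (P.natDegree + 1), |(P.coeff j : ℝ)| := ⟨_, rfl⟩
  have h0 : 0 ≤ ∑ j ∈ range (P.natDegree + 1), |(P.coeff j : ℝ)| := Finset.sum_nonneg fun _ _ => abs_nonneg _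
  have h1 := h P hP le_rfl H (by linarith) (fun j => by
    rcases Nat.lt_or_ge P.natDegree j with hj | hj
    · rw [coeff_eq_zero_of_natDegree_lt hj]
      simp
      linarith
    · have := Finset.single_le_sum (f := fun j => |(P.coeff j : ℝ)|) (fun _ _ => abs_nonneg _)
        (Finset.mem_range.2 (Nat.lt_succ_of_le hj))
      linarith)
  intro h2
  rw [h2, norm_zero, mul_zero] at h1
  linarith

/-- the polynomial with given coefficients -/
lemma sum_ne (x : ℝ) (hx : MeasT (x : ℂ)) (s : ℕ) (k : Fin s → ℤ) (hk : k ≠ 0) :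
    ∑ i, (k i : ℝ) * x ^ (i : ℕ) ≠ 0 := by
  set P : ℤ[X] := ∑ i : Fin s, Polynomial.C (k i) * X ^ (i : ℕ) with hP
  have hcoef : ∀ j : Fin s, P.coeff j = k j := by
    intro j
    rw [hP]
    simp only [Polynomial.finsetSum_coeff, Polynomial.coeff_C_mul, Polynomial.coeff_X_pow]
    rw [Finset.sum_eq_single j]
    · simp
    · intro b _ hb
      rw [if_neg (fun h2 => hb (Fin.ext h2.symm)), mul_zero]
    · intro h2
      exact absurd (Finset.mem_univ _) h2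
  have hP0 : P ≠ 0 := by
    intro h0
    apply hk
    funext j
    rw [← hcoef j, h0, coeff_zero]
    rfl
  have h1 := MeasT.ne hx P hP0
  intro h2
  apply h1
  rw [hP, map_sum]
  have h3 : ∀ i : Fin s, aeval (x : ℂ) (Polynomial.C (k i) * X ^ (i : ℕ)) = (((k i : ℝ) * x ^ (i : ℕ) : ℝ) : ℂ) := by
    intro i
    simp
  rw [Finset.sum_congr rfl fun i _ => h3 i, ← Complex.ofReal_sum, h2, Complex.ofReal_zero]

/-- **most integral dilates of the powers are nearly completely equidistributed on all blocks** -/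
theorem dilates (x : ℝ) (hx1 : 1 < x) (hx : MeasT (x : ℂ)) (s : ℕ) (ε : ℝ) (hε : 0 < ε) :
    ∃ (C : ℝ) (N₀ : ℕ), ∀ M N : ℕ, N₀ ≤ N → ∀ ξ : ℝ, Real.exp (-((M : ℝ) + N)) ≤ |ξ| → |ξ| ≤ Real.exp ((M : ℝ) + N) →
      ∀ (A : ℤ) (H : ℕ), Real.exp (C * (M + N)) ≤ H → ∃ E : Finset ℤ, (E.card : ℝ) ≤ ε * H ∧
        ∀ h ∈ Ioc A (A + H), h ∉ E → ∀ a b : Fin s → ℝ, (∀ i, 0 ≤ a i) → (∀ i, a i ≤ b i) → (∀ i, b i ≤ 1) →
          |((((Ico M (M + N)).filter (fun n => ∀ i, a i ≤ Int.fract (h * (ξ * x ^ (n + (i : ℕ)))) ∧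
            Int.fract (h * (ξ * x ^ (n + (i : ℕ)))) < b i)).card : ℕ) : ℝ) - (∏ i, (b i - a i)) * N| ≤ ε * N := by
  classical
  obtain ⟨K, hK0, hK⟩ := uweyl s ε hε
  have hx0 : 0 < x := by linarith
  have hKr : (0 : ℝ) < K := by exact_mod_cast hK0
  -- the frequencies
  set F : Finset (Fin s → ℤ) := (Fintype.piFinset fun _ : Fin s => Icc (-(K : ℤ)) K).filter (fun k => k ≠ 0) with hF
  obtain ⟨ε', hε'⟩ : ∃ ε' : ℝ, ε' = ε / ((F.card + 1) * K ^ 2) := ⟨_, rfl⟩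
  have hε'0 : 0 < ε' := by rw [hε']; positivity
  obtain ⟨C, T₀, N₀, hC, hmsq⟩ := msq_pow x hx1 hx ε' hε'0
  have hev : ∀ k ∈ F, ∀ᶠ N : ℕ in atTop, Real.exp (-(N : ℝ)) ≤ |∑ i, (k i : ℝ) * x ^ (i : ℕ)| ∧
      |∑ i, (k i : ℝ) * x ^ (i : ℕ)| ≤ Real.exp N := by
    intro k hk
    have hk0 : 0 < |∑ i, (k i : ℝ) * x ^ (i : ℕ)| := abs_pos.2 (sum_ne x hx s k (mem_filter.1 hk).2)
    have e1 : Tendsto (fun N : ℕ => Real.exp (-(N : ℝ))) atTop (𝓝 0) :=
      Real.tendsto_exp_neg_atTop_nhds_zero.comp tendsto_natCast_atTop_atTop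
    have e2 : Tendsto (fun N : ℕ => Real.exp (N : ℝ)) atTop atTop :=
      Real.tendsto_exp_atTop.comp tendsto_natCast_atTop_atTop
    filter_upwards [e1.eventually_lt_const hk0, e2.eventually_ge_atTop (|∑ i, (k i : ℝ) * x ^ (i : ℕ)|)] with N h1 h2
    exact ⟨h1.le, h2⟩
  have hev2 := (Finset.eventually_all F).2 hev
  obtain ⟨N₁, hN₁⟩ := hev2.exists_forall_of_atTop
  obtain ⟨N₂, hN₂⟩ := exists_nat_ge T₀
  refine ⟨2 * C, max (max N₀ N₁) (max N₂ 1), fun M N hN ξ hξ1 hξ2 A H hH => ?_⟩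
  have a1 : N₀ ≤ N := ((le_max_left _ _).trans (le_max_left _ _)).trans hN
  have a2 : N₁ ≤ N := ((le_max_right _ _).trans (le_max_left _ _)).trans hN
  have a3 : N₂ ≤ N := ((le_max_left _ _).trans (le_max_right _ _)).trans hN
  have a4 : 1 ≤ N := ((le_max_right _ _).trans (le_max_right _ _)).trans hN
  have hNr : (1 : ℝ) ≤ N := by exact_mod_cast a4
  have hMr : (0 : ℝ) ≤ M := Nat.cast_nonneg _
  set T : ℝ := 2 * ((M : ℝ) + N) with hT
  have hTT₀ : T₀ ≤ T := by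
    have : (N₂ : ℝ) ≤ N := by exact_mod_cast a3
    rw [hT]
    linarith
  have hMT : (M : ℝ) + N ≤ T := by rw [hT]; linarith
  -- the mean squares
  have hms : ∀ k ∈ F, ∑ h ∈ Ioc A (A + H), ‖∑ n ∈ Ico M (M + N),
      ee (h * ((ξ * ∑ i, (k i : ℝ) * x ^ (i : ℕ)) * x ^ n))‖ ^ 2 ≤ ε' * N ^ 2 * H := by
    intro k hk
    obtain ⟨b1, b2⟩ := hN₁ (M + N) (by omega) k hk
    push_cast at b1 b2
    refine hmsq T hTT₀ _ ?_ ?_ M N a1 hMT A H ?_
    · rw [abs_mul]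
      have : Real.exp (-T) = Real.exp (-((M : ℝ) + N)) * Real.exp (-((M : ℝ) + N)) := by
        rw [← Real.exp_add, hT]; congr 1; ring
      rw [this]
      exact mul_le_mul hξ1 b1 (Real.exp_pos _).le (abs_nonneg _)
    · rw [abs_mul]
      have : Real.exp T = Real.exp ((M : ℝ) + N) * Real.exp ((M : ℝ) + N) := by
        rw [← Real.exp_add, hT]; congr 1; ring
      rw [this]
      exact mul_le_mul hξ2 b2 (abs_nonneg _) (Real.exp_pos _).le
    · refine le_trans (Real.exp_le_exp.2 (le_of_eq ?_)) hH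
      rw [hT]; ring
  -- the bad integers
  let Ek : (Fin s → ℤ) → Finset ℤ := fun k => (Ioc A (A + H)).filter (fun h : ℤ =>
    (N : ℝ) < K * ‖∑ n ∈ Ico M (M + N), ee (h * ((ξ * ∑ i, (k i : ℝ) * x ^ (i : ℕ)) * x ^ n))‖)
  have hEk : ∀ k ∈ F, ((Ek k).card : ℝ) ≤ ε' * K ^ 2 * H := by
    intro k hk
    have h1 := hms k hk
    have h2 : ∑ _h ∈ Ek k, ((N : ℝ) / K) ^ 2 ≤ ∑ h ∈ Ioc A (A + H), ‖∑ n ∈ Ico M (M + N),
      ee (h * ((ξ * ∑ i, (k i : ℝ) * x ^ (i : ℕ)) * x ^ n))‖ ^ 2 := by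
      refine le_trans (Finset.sum_le_sum fun h hh => ?_)
        (Finset.sum_le_sum_of_subset_of_nonneg (filter_subset _ _) fun _ _ _ => by positivity)
      have h3 := (mem_filter.1 hh).2
      refine pow_le_pow_left₀ (by positivity) ?_ 2
      rw [div_le_iff₀ hKr, mul_comm]
      exact h3.le
    rw [sum_const, nsmul_eq_mul] at h2
    have h4 := h2.trans h1
    have h5 : (0 : ℝ) < (N : ℝ) ^ 2 := by positivity
    rw [div_pow, ← mul_div_assoc, div_le_iff₀ (by positivity)] at h4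
    have h6 : ((Ek k).card : ℝ) * (N : ℝ) ^ 2 ≤ (ε' * K ^ 2 * H) * (N : ℝ) ^ 2 := by
      calc ((Ek k).card : ℝ) * (N : ℝ) ^ 2 ≤ ε' * N ^ 2 * H * K ^ 2 := h4
        _ = _ := by ring
    exact le_of_mul_le_mul_right h6 h5
  refine ⟨F.biUnion Ek, ?_, ?_⟩
  · have h1 : ((F.biUnion Ek).card : ℝ) ≤ ∑ k ∈ F, ((Ek k).card : ℝ) := by
      exact_mod_cast card_biUnion_le
    refine h1.trans ((sum_le_sum hEk).trans ?_)
    rw [sum_const, nsmul_eq_mul]
    have h2 : (F.card : ℝ) * (ε' * K ^ 2 * H) = (F.card / (F.card + 1)) * (ε * H) := by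
      rw [hε']
      field_simp
    rw [h2]
    have h3 : (F.card : ℝ) / (F.card + 1) ≤ 1 := by
      rw [div_le_one (by positivity)]
      linarith
    have h4 : 0 ≤ ε * H := by positivity
    nlinarith
  · intro h hh hE a b ha hab hb
    have hC : Cond K (Ico M (M + N)) (fun n (i : Fin s) => (h : ℝ) * (ξ * x ^ (n + (i : ℕ)))) := by
      intro k hk hkK
      have hkF : k ∈ F := by
        rw [hF, mem_filter]
        refine ⟨?_, hk⟩
        rw [Fintype.mem_piFinset]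
        intro i
        rw [mem_Icc]
        exact abs_le.1 (hkK i)
      have h1 : h ∉ Ek k := fun h2 => hE (mem_biUnion.2 ⟨k, hkF, h2⟩)
      have h2 : ∀ n, ∑ i, (k i : ℝ) * ((h : ℝ) * (ξ * x ^ (n + (i : ℕ)))) =
          h * ((ξ * ∑ i, (k i : ℝ) * x ^ (i : ℕ)) * x ^ n) := by
        intro n
        rw [Finset.mul_sum, Finset.sum_mul, Finset.mul_sum]
        refine Finset.sum_congr rfl fun i _ => ?_
        rw [pow_add]
        ring
      simp_rw [h2]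
      by_contra hcon
      push Not at hcon
      rw [Nat.card_Ico, Nat.add_sub_cancel_left] at hcon
      exact h1 (mem_filter.2 ⟨hh, hcon⟩)
    have h3 := hK (Ico M (M + N)) _ hC a b ha hab hb
    rw [Nat.card_Ico, Nat.add_sub_cancel_left] at h3
    exact h3

end Pool.Agent.J4H75.PN
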