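import Pool.Agent.J4H75.PN.Core

/-!
# Exponential polynomials
-/

set_option autoImplicit false

open Polynomial Finset Filter Topology

namespace Pool.Agent.J4H75.PN

/-- `R(n) a^n` -/
noncomputable def sq (R : ℂ[X]) (a : ℂ) : ℕ → ℂ := fun n => R.eval (n : ℂ) * a ^ n

lemma act_shift {R : Type} [CommRing R] (P : R[X]) (f : ℕ → R) (M i : ℕ) :
    act P (fun i => f (M + i)) i = act P f (M + i) := by
  rw [act_apply P _ i le_rfl, act_apply P _ (M + i) le_rfl]
  refine Finset.sum_congr rfl fun j _ => ?_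
  rw [Nat.add_assoc]

lemma coeff_taylor_top (R : ℂ[X]) (e : ℕ) (hR : R.natDegree ≤ e) : (taylor 1 R).coeff e = R.coeff e := by
  rw [taylor_coeff, hasseDeriv_apply, sum_over_range' _ _ (e + 1) (by omega)]
  · rw [Finset.sum_range_succ, Finset.sum_eq_zero]
    · simp
    · intro i hi
      rw [mem_range] at hi
      rw [Nat.choose_eq_zero_of_lt hi]
      simp
  · intro i
    simp

lemma coeff_taylor_next (R : ℂ[X]) (e : ℕ) (hR : R.natDegree ≤ e + 1) :
    (taylor 1 R).coeff e = R.coeff e + (e + 1) * R.coeff (e + 1) := by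
  rw [taylor_coeff, hasseDeriv_apply, sum_over_range' _ _ (e + 2) (by omega)]
  · rw [Finset.sum_range_succ, Finset.sum_range_succ, Finset.sum_eq_zero]
    · rw [eval_add]
      simp
    · intro i hi
      rw [mem_range] at hi
      rw [Nat.choose_eq_zero_of_lt hi]
      simp
  · intro i
    simp

lemma eval_taylor_one (R : ℂ[X]) (n : ℕ) : (taylor 1 R).eval (n : ℂ) = R.eval ((n + 1 : ℕ) : ℂ) := by
  rw [taylor_eval]
  push_cast
  rfl

/-- a polynomial acts on `R(n) a^n` -/
lemma act_sq (S : ℂ[X]) (a : ℂ) (e : ℕ) : ∀ R : ℂ[X], R.natDegree ≤ e →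
    ∃ R' : ℂ[X], R'.natDegree ≤ e ∧ R'.coeff e = S.eval a * R.coeff e ∧ act S (sq R a) = sq R' a := by
  induction S using Polynomial.induction_on' with
  | add p q hp hq =>
    intro R hR
    obtain ⟨R₁, h1, h2, h3⟩ := hp R hR
    obtain ⟨R₂, g1, g2, g3⟩ := hq R hR
    refine ⟨R₁ + R₂, (natDegree_add_le _ _).trans (max_le h1 g1), ?_, ?_⟩
    · rw [coeff_add, h2, g2, eval_add]
      ring
    · rw [act_add, h3, g3]
      funext n
      simp [sq, add_mul]
  | monomial k c =>
    intro R hR
    induction k generalizing R with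
    | zero =>
      refine ⟨C c * R, (natDegree_C_mul_le _ _).trans hR, ?_, ?_⟩
      · rw [coeff_C_mul]
        simp
      · rw [monomial_zero_left, act_C]
        funext n
        simp [sq, mul_assoc]
    | succ k ih =>
      obtain ⟨R', h1, h2, h3⟩ := ih (C a * taylor 1 R) ((natDegree_C_mul_le _ _).trans (by
        rw [natDegree_taylor]; exact hR))
      refine ⟨R', h1, ?_, ?_⟩
      · rw [h2, coeff_C_mul, coeff_taylor_top R e hR]
        simp only [eval_monomial, pow_succ]
        ring
      · rw [← h3]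
        have e1 : monomial (k + 1) c = monomial k c * X := by
          rw [monomial_mul_X]
        rw [e1, act_mul]
        congr 1
        funext n
        rw [act_X]
        simp only [sq, eval_mul, eval_C, eval_taylor_one]
        rw [pow_succ]
        ring

/-- one factor lowers the degree -/
lemma act_sq_lower (a : ℂ) (e : ℕ) (R : ℂ[X]) (hR : R.natDegree ≤ e + 1) :
    ∃ R' : ℂ[X], R'.natDegree ≤ e ∧ R'.coeff e = a * (e + 1) * R.coeff (e + 1) ∧
      act (X - C a) (sq R a) = sq R' a := by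
  refine ⟨C a * (taylor 1 R - R), ?_, ?_, ?_⟩
  · refine (natDegree_C_mul_le _ _).trans ?_
    rw [natDegree_le_iff_coeff_eq_zero]
    intro n hn
    rw [coeff_sub]
    rcases Nat.lt_or_ge (e + 1) n with h | h
    · rw [coeff_eq_zero_of_natDegree_lt (by rw [natDegree_taylor]; omega),
        coeff_eq_zero_of_natDegree_lt (by omega), sub_zero]
    · have : n = e + 1 := by omega
      subst this
      rw [coeff_taylor_top R (e + 1) hR, sub_self]
  · rw [coeff_C_mul, coeff_sub, coeff_taylor_next R e hR]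
    ring
  · rw [act_sub, act_C]
    funext n
    rw [Pi.sub_apply, act_X, Pi.smul_apply, smul_eq_mul]
    simp only [sq, eval_mul, eval_C, eval_sub, eval_taylor_one]
    rw [pow_succ]
    ring

lemma act_sq_pow (a : ℂ) (e : ℕ) : ∀ R : ℂ[X], R.natDegree ≤ e → ∀ n,
    act ((X - C a) ^ e) (sq R a) n = ((e.factorial : ℂ) * a ^ e * R.coeff e) * a ^ n := by
  induction e with
  | zero =>
    intro R hR n
    rw [pow_zero, ← C_1, act_C, one_smul]
    have h1 : R = C (R.coeff 0) := eq_C_of_natDegree_le_zero hR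
    rw [sq]
    conv_lhs => rw [h1]
    simp
  | succ e ih =>
    intro R hR n
    obtain ⟨R', h1, h2, h3⟩ := act_sq_lower a e R hR
    rw [pow_succ, act_mul, h3, ih R' h1 n, h2, Nat.factorial_succ]
    push_cast
    ring

lemma act_sq_pow_succ (a : ℂ) (e : ℕ) (R : ℂ[X]) (hR : R.natDegree ≤ e) (n : ℕ) :
    act ((X - C a) ^ (e + 1)) (sq R a) n = 0 := by
  have h1 : act ((X - C a) ^ e) (sq R a) = fun n => ((e.factorial : ℂ) * a ^ e * R.coeff e) * a ^ n :=
    funext fun n => act_sq_pow a e R hR n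
  rw [pow_succ', act_mul, h1, act_geom]
  simp

lemma act_sq_of_dvd (a : ℂ) (e : ℕ) (R S : ℂ[X]) (hR : R.natDegree ≤ e) (hS : (X - C a) ^ (e + 1) ∣ S) (n : ℕ) :
    act S (sq R a) n = 0 := by
  obtain ⟨U, hU⟩ := hS
  rw [hU, mul_comm, act_mul, act_apply U _ n le_rfl]
  refine Finset.sum_eq_zero fun j _ => ?_
  rw [act_sq_pow_succ a e R hR, mul_zero]

end Pool.Agent.J4H75.PN
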