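import Pool.Agent.J4H75.PN.Exp

/-!
# Exponential polynomials on blocks of consecutive integers
-/

set_option autoImplicit false

open Polynomial Finset Filter Topology

namespace Pool.Agent.J4H75.PN

open Pool.Agent.TH456.TM (MeasT)

/-- size of a value of a polynomial -/
lemma norm_eval_le (R : ℂ[X]) (d : ℕ) (hR : R.natDegree ≤ d) (Cc : ℝ) (hC : ∀ j, ‖R.coeff j‖ ≤ Cc) (n : ℕ) (N : ℝ)
    (hN : 1 ≤ N) (hn : (n : ℝ) ≤ N) : ‖R.eval (n : ℂ)‖ ≤ (d + 1) * (Cc * N ^ d) := by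
  have hC0 : 0 ≤ Cc := (norm_nonneg _).trans (hC 0)
  rw [eval_eq_sum_range' (Nat.lt_succ_of_le hR)]
  refine (norm_sum_le _ _).trans ?_
  have h1 : ∀ j ∈ range (d + 1), ‖R.coeff j * (n : ℂ) ^ j‖ ≤ Cc * N ^ d := by
    intro j hj
    rw [mem_range] at hj
    rw [norm_mul, norm_pow, Complex.norm_natCast]
    have h2 : (n : ℝ) ^ j ≤ N ^ d :=
      (pow_le_pow_left₀ (Nat.cast_nonneg _) hn j).trans (pow_le_pow_right₀ hN (by omega))
    exact mul_le_mul (hC j) h2 (by positivity) hC0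
  refine (Finset.sum_le_sum h1).trans (le_of_eq ?_)
  rw [Finset.sum_const, Finset.card_range, nsmul_eq_mul]
  push_cast
  ring

/-- **Blocks.** -/
theorem blocks (x : ℂ) (hx : MeasT x) (hx1 : 1 < ‖x‖) (m d : ℕ) (a : Fin m → ℂ) (ha : ∀ i, a i ≠ x) (δ : ℝ)
    (hδ : 0 < δ) :
    ∃ (K : ℕ) (η : ℝ) (M₀ : ℕ), 0 < η ∧ ∀ M : ℕ, M₀ ≤ M → ∀ (R₀ : ℂ[X]) (R : Fin m → ℂ[X]),
      R₀.natDegree ≤ d → (∀ i, (R i).natDegree ≤ d) →
      (∀ j, ‖R₀.coeff j‖ ≤ Real.exp M) → (∀ i j, ‖(R i).coeff j‖ ≤ Real.exp M) →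
      1 ≤ ‖R₀.leadingCoeff‖ * ‖x‖ ^ M →
      ∃ n : ℕ, M ≤ n ∧ n < M + K ∧ ∀ (p : ℤ) (q : ℕ), 1 ≤ q → (q : ℝ) ≤ Real.exp (η * n) →
        Real.exp (-(δ * n)) ≤ ‖R₀.eval (n : ℂ) * x ^ n + ∑ i, (R i).eval (n : ℂ) * a i ^ n - (p : ℂ) / q‖ := by
  classical
  -- the polynomials
  obtain ⟨S, hS⟩ : ∃ S : ℂ[X], S = ∏ i, (X - C (a i)) ^ (d + 1) := ⟨_, rfl⟩
  obtain ⟨χ, hχ⟩ : ∃ χ : ℂ[X], χ = (X - C x) ^ (d + 1) * S := ⟨_, rfl⟩
  have hSmon : S.Monic := by
    rw [hS]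
    exact monic_prod_of_monic _ _ fun i _ => (monic_X_sub_C _).pow _
  have hχmon : χ.Monic := by
    rw [hχ]
    exact ((monic_X_sub_C _).pow _).mul hSmon
  obtain ⟨E, hE⟩ : ∃ E : ℕ, E = d + S.natDegree := ⟨_, rfl⟩
  obtain ⟨L, hL⟩ : ∃ L : ℝ, L = 1 + ∑ e ∈ range (d + 1), ∑ j ∈ range (E + 1), ‖((X - C x) ^ e * S).coeff j‖ :=
    ⟨_, rfl⟩
  have hL0 : 0 < L := by
    rw [hL]
    have : 0 ≤ ∑ e ∈ range (d + 1), ∑ j ∈ range (E + 1), ‖((X - C x) ^ e * S).coeff j‖ :=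
      Finset.sum_nonneg fun _ _ => Finset.sum_nonneg fun _ _ => norm_nonneg _
    linarith
  have hdegΨ : ∀ e ≤ d, ((X - C x) ^ e * S).natDegree ≤ E := by
    intro e he
    refine natDegree_mul_le.trans ?_
    rw [hE]
    refine Nat.add_le_add_right (natDegree_pow_le.trans ?_) _
    rw [natDegree_X_sub_C, mul_one]
    exact he
  have hLΨ : ∀ e ≤ d, ∀ j, ‖((X - C x) ^ e * S).coeff j‖ ≤ L := by
    intro e he j
    have h0 : ∀ e ∈ range (d + 1), 0 ≤ ∑ j ∈ range (E + 1), ‖((X - C x) ^ e * S).coeff j‖ :=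
      fun _ _ => Finset.sum_nonneg fun _ _ => norm_nonneg _
    have h1 := Finset.single_le_sum h0 (mem_range.2 (Nat.lt_succ_of_le he))
    rcases Nat.lt_or_ge E j with hj | hj
    · rw [coeff_eq_zero_of_natDegree_lt (lt_of_le_of_lt (hdegΨ e he) hj), norm_zero]
      exact hL0.le
    · have h2 := Finset.single_le_sum (f := fun j => ‖((X - C x) ^ e * S).coeff j‖) (s := range (E + 1))
        (fun _ _ => norm_nonneg _) (mem_range.2 (Nat.lt_succ_of_le hj))
      rw [hL]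
      linarith
  have hσ : 0 < ‖S.eval x‖ := by
    rw [norm_pos_iff, hS, eval_prod]
    refine Finset.prod_ne_zero_iff.2 fun i _ => ?_
    rw [eval_pow, eval_sub, eval_X, eval_C]
    exact pow_ne_zero _ (sub_ne_zero.2 (Ne.symm (ha i)))
  -- the size
  obtain ⟨A, hA⟩ : ∃ A : ℝ, A = 1 + ‖x‖ + ∑ i, ‖a i‖ := ⟨_, rfl⟩
  have hA0 : 0 ≤ ∑ i, ‖a i‖ := Finset.sum_nonneg fun _ _ => norm_nonneg _
  have hA1 : 1 ≤ A := by
    rw [hA]; have := norm_nonneg x; linarith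
  have hAx : ‖x‖ ≤ A := by rw [hA]; linarith
  have hAa : ∀ i, ‖a i‖ ≤ A := by
    intro i
    have h1 := Finset.single_le_sum (f := fun i => ‖a i‖) (s := univ) (fun _ _ => norm_nonneg _) (mem_univ i)
    rw [hA]
    have := norm_nonneg x
    linarith
  have hlogA : 0 ≤ Real.log A := Real.log_nonneg hA1
  obtain ⟨B, hB⟩ : ∃ B : ℝ, B = 3 + Real.log A := ⟨_, rfl⟩
  obtain ⟨K, T₀, hcore⟩ := core x hx χ hχmon E L B (δ / 2) ‖S.eval x‖ hL0 (by rw [hB]; linarith) (by positivity) hσ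
  obtain ⟨η, hη⟩ : ∃ η : ℝ, η = min 1 (δ / 2) / (2 * (K + 1)) := ⟨_, rfl⟩
  have hmin0 : 0 < min 1 (δ / 2) := by positivity
  have hη0 : 0 < η := by rw [hη]; positivity
  -- eventually
  have hev : ∀ᶠ M : ℕ in atTop, ((m : ℝ) + 1) * ((d + 1) * ((M : ℝ) + K) ^ d * A ^ K) ≤ Real.exp M := by
    have l1 : Tendsto (fun M : ℕ => ((M : ℝ) + K)) atTop atTop :=
      tendsto_atTop_add_const_right _ _ tendsto_natCast_atTop_atTop
    have l2 := (Real.isLittleO_pow_exp_atTop (n := d)).comp_tendsto l1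
    have l3 := l2.bound (show (0 : ℝ) < 1 / (((m : ℝ) + 1) * ((d + 1) * A ^ K) * Real.exp K) by positivity)
    filter_upwards [l3] with M hM
    simp only [Function.comp_apply] at hM
    rw [Real.norm_of_nonneg (by positivity), Real.norm_of_nonneg (Real.exp_pos _).le, Real.exp_add] at hM
    calc ((m : ℝ) + 1) * ((d + 1) * ((M : ℝ) + K) ^ d * A ^ K)
        = (((m : ℝ) + 1) * ((d + 1) * A ^ K)) * ((M : ℝ) + K) ^ d := by ring
      _ ≤ (((m : ℝ) + 1) * ((d + 1) * A ^ K)) * (1 / (((m : ℝ) + 1) * ((d + 1) * A ^ K) * Real.exp K) *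
          (Real.exp M * Real.exp K)) := mul_le_mul_of_nonneg_left hM (by positivity)
      _ = Real.exp M := by
          field_simp
  obtain ⟨M₁, hM₁⟩ := hev.exists_forall_of_atTop
  obtain ⟨M₂, hM₂⟩ := exists_nat_ge T₀
  refine ⟨K, η, max (max M₁ M₂) (K + 1), hη0, fun M hM R₀ R hR₀ hR hc₀ hc hlc => ?_⟩
  have hMM₁ : M₁ ≤ M := ((le_max_left _ _).trans (le_max_left _ _)).trans hM
  have hMM₂ : M₂ ≤ M := ((le_max_right _ _).trans (le_max_left _ _)).trans hM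
  have hMK : K + 1 ≤ M := (le_max_right _ _).trans hM
  have hMK' : (K : ℝ) ≤ M := by exact_mod_cast (by omega : K ≤ M)
  by_contra hcon
  push Not at hcon
  choose! p q hq1 hq2 hpq using hcon
  -- the common denominator
  obtain ⟨Q, hQ⟩ : ∃ Q : ℕ, Q = ∏ i ∈ range K, q (M + i) := ⟨_, rfl⟩
  have hQ1 : 1 ≤ Q := by
    rw [hQ]
    exact Nat.one_le_iff_ne_zero.2 (Finset.prod_ne_zero_iff.2 fun i hi => by
      have := hq1 (M + i) (by omega) (by rw [mem_range] at hi; omega)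
      omega)
  have hQ2 : (Q : ℝ) ≤ Real.exp (min 1 (δ / 2) * M) := by
    rw [hQ]
    push_cast
    calc ∏ i ∈ range K, (q (M + i) : ℝ) ≤ ∏ _i ∈ range K, Real.exp (η * (2 * M)) := by
          refine Finset.prod_le_prod (fun _ _ => Nat.cast_nonneg _) fun i hi => ?_
          rw [mem_range] at hi
          refine (hq2 (M + i) (by omega) (by omega)).trans (Real.exp_le_exp.2 ?_)
          refine mul_le_mul_of_nonneg_left ?_ hη0.le
          push_cast
          have : (i : ℝ) ≤ K := by exact_mod_cast hi.le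
          linarith
      _ = Real.exp (K * (η * (2 * M))) := by
          rw [Finset.prod_const, Finset.card_range, ← Real.exp_nat_mul]
      _ ≤ Real.exp (min 1 (δ / 2) * M) := by
          apply Real.exp_le_exp.2
          have h1 : K * (η * (2 * M)) = min 1 (δ / 2) * M * (K / (K + 1)) := by
            rw [hη]
            field_simp
          rw [h1]
          refine mul_le_of_le_one_right (by positivity) ?_
          rw [div_le_one (by positivity)]
          linarith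
  have hQpos : (0 : ℝ) < Q := by exact_mod_cast hQ1
  -- the integers
  have hdvd : ∀ i, i < K → ∃ c : ℤ, (Q : ℂ) * ((p (M + i) : ℂ) / (q (M + i) : ℂ)) = c := by
    intro i hi
    have h1 : q (M + i) ∣ Q := by
      rw [hQ]
      exact Finset.dvd_prod_of_mem (fun i => q (M + i)) (mem_range.2 hi)
    obtain ⟨r, hr⟩ := h1
    refine ⟨r * p (M + i), ?_⟩
    have h2 : (q (M + i) : ℂ) ≠ 0 := by
      have := hq1 (M + i) (by omega) (by omega)
      exact_mod_cast (by omega : q (M + i) ≠ 0)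
    rw [hr]
    push_cast
    field_simp
  choose! b hb using hdvd
  -- the sequence
  obtain ⟨F, hF⟩ : ∃ F : ℕ → ℂ, F = (Q : ℂ) • (sq R₀ x + ∑ i, sq (R i) (a i)) := ⟨_, rfl⟩
  have hFval : ∀ n, F n = Q * (R₀.eval (n : ℂ) * x ^ n + ∑ i, (R i).eval (n : ℂ) * a i ^ n) := by
    intro n
    rw [hF]
    simp [sq, Finset.sum_apply]
  have hFact : ∀ (P : ℂ[X]) (n : ℕ), act P F n = Q * (act P (sq R₀ x) n + ∑ i, act P (sq (R i) (a i)) n) := by
    intro P n
    rw [hF, act_smul_seq, act_add_seq, act_sum_seq]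
    simp [Finset.sum_apply]
  set e := R₀.natDegree with he
  have hΨkill : ∀ (U : ℂ[X]) (n : ℕ), S ∣ U → ∑ i, act U (sq (R i) (a i)) n = 0 := by
    intro U n hU
    refine Finset.sum_eq_zero fun i _ => ?_
    refine act_sq_of_dvd (a i) d (R i) U (hR i) (dvd_trans ?_ hU) n
    rw [hS]
    exact Finset.dvd_prod_of_mem (fun i => (X - C (a i)) ^ (d + 1)) (mem_univ i)
  obtain ⟨R', hR'1, hR'2, hR'3⟩ := act_sq S x e R₀ le_rfl
  have hΨ : ∀ n, act ((X - C x) ^ e * S) F n =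
      (Q * ((e.factorial : ℂ) * x ^ e * (S.eval x * R₀.leadingCoeff))) * x ^ n := by
    intro n
    rw [hFact, hΨkill _ _ (dvd_mul_left _ _), act_mul, hR'3, act_sq_pow x e R' hR'1, hR'2, add_zero]
    unfold leadingCoeff
    ring
  refine hcore M (hM₂.trans (by exact_mod_cast hMM₂)) (fun i => F (M + i)) b ((X - C x) ^ e * S)
    ((Q * ((e.factorial : ℂ) * x ^ e * (S.eval x * R₀.leadingCoeff))) * x ^ M) (hdegΨ e hR₀) (hLΨ e hR₀)
    ?_ ?_ ?_ ?_ ?_
  · intro i hi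
    rw [hFval, norm_mul, Complex.norm_natCast]
    have hn : (((M + i : ℕ)) : ℝ) ≤ (M : ℝ) + K := by
      push_cast
      have : (i : ℝ) ≤ K := by exact_mod_cast hi.le
      linarith
    have hN1 : (1 : ℝ) ≤ (M : ℝ) + K := by
      have : (1 : ℝ) ≤ M := by exact_mod_cast (by omega : 1 ≤ M)
      have : (0 : ℝ) ≤ K := Nat.cast_nonneg _
      linarith
    have hpow : ∀ z : ℂ, ‖z‖ ≤ A → ‖z ^ (M + i)‖ ≤ A ^ (M + K) := by
      intro z hz
      rw [norm_pow]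
      exact (pow_le_pow_left₀ (norm_nonneg _) hz _).trans (pow_le_pow_right₀ hA1 (by omega))
    have hterm : ∀ (U : ℂ[X]) (z : ℂ), U.natDegree ≤ d → (∀ j, ‖U.coeff j‖ ≤ Real.exp M) → ‖z‖ ≤ A →
        ‖U.eval ((M + i : ℕ) : ℂ) * z ^ (M + i)‖ ≤ ((d + 1) * (Real.exp M * ((M : ℝ) + K) ^ d)) * A ^ (M + K) := by
      intro U z hU1 hU2 hz
      rw [norm_mul]
      exact mul_le_mul (norm_eval_le U d hU1 _ hU2 _ _ hN1 hn) (hpow z hz) (norm_nonneg _) (by positivity)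
    have hsum : ‖R₀.eval ((M + i : ℕ) : ℂ) * x ^ (M + i) + ∑ l, (R l).eval ((M + i : ℕ) : ℂ) * a l ^ (M + i)‖ ≤
        ((m : ℝ) + 1) * (((d + 1) * (Real.exp M * ((M : ℝ) + K) ^ d)) * A ^ (M + K)) := by
      refine (norm_add_le _ _).trans ?_
      have h1 := hterm R₀ x hR₀ hc₀ hAx
      have h2 : ‖∑ l, (R l).eval ((M + i : ℕ) : ℂ) * a l ^ (M + i)‖ ≤
          m * (((d + 1) * (Real.exp M * ((M : ℝ) + K) ^ d)) * A ^ (M + K)) := by
        refine (norm_sum_le _ _).trans ?_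
        refine (Finset.sum_le_sum fun l _ => hterm (R l) (a l) (hR l) (hc l) (hAa l)).trans (le_of_eq ?_)
        rw [Finset.sum_const, Finset.card_univ, Fintype.card_fin, nsmul_eq_mul]
      linarith
    have hQ3 : (Q : ℝ) ≤ Real.exp M := by
      refine hQ2.trans (Real.exp_le_exp.2 ?_)
      exact mul_le_of_le_one_left (Nat.cast_nonneg _) (min_le_left _ _)
    refine (mul_le_mul hQ3 hsum (norm_nonneg _) (Real.exp_pos _).le).trans ?_
    have h3 := hM₁ M hMM₁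
    have h4 : A ^ M = Real.exp (Real.log A * M) := by
      rw [mul_comm, Real.exp_nat_mul, Real.exp_log (by linarith)]
    calc Real.exp M * (((m : ℝ) + 1) * (((d + 1) * (Real.exp M * ((M : ℝ) + K) ^ d)) * A ^ (M + K)))
        = (Real.exp M * Real.exp M * A ^ M) * (((m : ℝ) + 1) * ((d + 1) * ((M : ℝ) + K) ^ d * A ^ K)) := by
          rw [pow_add]; ring
      _ ≤ (Real.exp M * Real.exp M * A ^ M) * Real.exp M := mul_le_mul_of_nonneg_left h3 (by positivity)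
      _ = Real.exp (B * M) := by
          rw [h4, ← Real.exp_add, ← Real.exp_add, ← Real.exp_add, hB]
          congr 1
          ring
  · intro i
    rw [act_shift, hFact, hΨkill χ _ (by rw [hχ]; exact dvd_mul_left _ _),
      act_sq_of_dvd x d R₀ χ hR₀ (by rw [hχ]; exact dvd_mul_right _ _)]
    simp
  · intro i hi
    have h1 := hpq (M + i) (by omega) (by omega)
    have h2 := hb i hi
    rw [← h2, hFval, ← mul_sub, norm_mul, Complex.norm_natCast]
    calc (Q : ℝ) * ‖R₀.eval ((M + i : ℕ) : ℂ) * x ^ (M + i) + ∑ l, (R l).eval ((M + i : ℕ) : ℂ) * a l ^ (M + i) -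
          (p (M + i) : ℂ) / (q (M + i) : ℂ)‖
        ≤ Real.exp (min 1 (δ / 2) * M) * Real.exp (-(δ * ((M + i : ℕ) : ℝ))) :=
          mul_le_mul hQ2 h1.le (norm_nonneg _) (Real.exp_pos _).le
      _ ≤ Real.exp (-(δ / 2 * M)) := by
          rw [← Real.exp_add]
          apply Real.exp_le_exp.2
          have h5 : min 1 (δ / 2) * (M : ℝ) ≤ δ / 2 * M :=
            mul_le_mul_of_nonneg_right (min_le_right _ _) (Nat.cast_nonneg _)
          have h6 : δ * (M : ℝ) ≤ δ * ((M + i : ℕ) : ℝ) := by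
            refine mul_le_mul_of_nonneg_left ?_ hδ.le
            push_cast
            have : (0 : ℝ) ≤ i := Nat.cast_nonneg _
            linarith
          linarith
  · intro i
    rw [act_shift, hΨ]
    rw [pow_add]
    ring
  · rw [norm_mul, norm_mul, norm_mul, norm_mul, norm_mul, norm_pow, norm_pow, Complex.norm_natCast,
      Complex.norm_natCast]
    have h1 : (1 : ℝ) ≤ Q := by exact_mod_cast hQ1
    have h2 : (1 : ℝ) ≤ (e.factorial : ℝ) := by exact_mod_cast Nat.factorial_pos _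
    have h3 : (1 : ℝ) ≤ ‖x‖ ^ e := one_le_pow₀ hx1.le
    have h4 : (Q : ℝ) * ((e.factorial : ℝ) * ‖x‖ ^ e * (‖S.eval x‖ * ‖R₀.leadingCoeff‖)) * ‖x‖ ^ M =
        ‖S.eval x‖ * ((Q : ℝ) * ((e.factorial : ℝ) * ‖x‖ ^ e) * (‖R₀.leadingCoeff‖ * ‖x‖ ^ M)) := by ring
    rw [h4]
    refine le_mul_of_one_le_right (norm_nonneg _) ?_
    have h5 : 1 ≤ (e.factorial : ℝ) * ‖x‖ ^ e := one_le_mul_of_one_le_of_one_le h2 h3
    have h6 : 1 ≤ (Q : ℝ) * ((e.factorial : ℝ) * ‖x‖ ^ e) := one_le_mul_of_one_le_of_one_le h1 h5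
    exact one_le_mul_of_one_le_of_one_le h6 hlc

end Pool.Agent.J4H75.PN
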