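import Mathlib

/-!
# A uniform form of Weyl's criterion on the torus
-/

set_option autoImplicit false

open MeasureTheory Filter Topology Finset
open scoped Real

namespace Pool.Agent.J4H75.PN

variable {s : ℕ}

/-- `e(t)` -/
noncomputable def ee (t : ℝ) : ℂ := Complex.exp (2 * π * Complex.I * t)

lemma norm_ee (t : ℝ) : ‖ee t‖ = 1 := by
  rw [ee]
  have : (2 * π * Complex.I * t : ℂ) = ((2 * π * t : ℝ) : ℂ) * Complex.I := by push_cast; ring
  rw [this, Complex.norm_exp_ofReal_mul_I]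

lemma ee_add (a b : ℝ) : ee (a + b) = ee a * ee b := by
  rw [ee, ee, ee, ← Complex.exp_add]
  congr 1
  push_cast
  ring

/-- the Haar measure of the torus -/
noncomputable abbrev haar (s : ℕ) : Measure (UnitAddTorus (Fin s)) :=
  Measure.pi (fun _ : Fin s => (AddCircle.haarAddCircle (T := (1 : ℝ))))

/-- a point of the torus -/
noncomputable def pt (x : Fin s → ℝ) : UnitAddTorus (Fin s) := fun i => (x i : UnitAddCircle)

/-- the exponential sums with small frequencies are small -/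
def Cond (K : ℕ) (S : Finset ℕ) (x : ℕ → Fin s → ℝ) : Prop :=
  ∀ k : Fin s → ℤ, k ≠ 0 → (∀ i, |k i| ≤ K) → K * ‖∑ n ∈ S, ee (∑ i, k i * x n i)‖ ≤ S.card

/-- the mean of `F` along a sequence is near `μ`, as soon as the exponential sums are small -/
def Mn (F : UnitAddTorus (Fin s) → ℂ) (μ : ℂ) : Prop :=
  ∀ ε : ℝ, 0 < ε → ∀ᶠ K : ℕ in atTop, ∀ (S : Finset ℕ) (x : ℕ → Fin s → ℝ), Cond K S x →
    ‖∑ n ∈ S, F (pt (x n)) - S.card * μ‖ ≤ ε * S.card

lemma integral_mFourier (k : Fin s → ℤ) :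
    ∫ z, (UnitAddTorus.mFourier k : C(UnitAddTorus (Fin s), ℂ)) z ∂(haar s) = if k = 0 then 1 else 0 := by
  have h1 : ∀ m : ℤ, ∫ z, (fourier m : C(UnitAddCircle, ℂ)) z ∂AddCircle.haarAddCircle =
        if m = 0 then 1 else 0 := by
    intro m
    have e1 : fourierCoeff (T := 1) (fourier m : C(UnitAddCircle, ℂ)) 0 =
        ∫ z, (fourier m : C(UnitAddCircle, ℂ)) z ∂AddCircle.haarAddCircle := by
      simp [fourierCoeff]
    rw [← e1, fourierCoeff_fourier]
    by_cases hm : m = 0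
    · rw [if_pos hm, hm, Pi.single_eq_same]
    · rw [if_neg hm, Pi.single_eq_of_ne (Ne.symm hm)]
  have h2 : ∫ z, (UnitAddTorus.mFourier k : C(UnitAddTorus (Fin s), ℂ)) z ∂(haar s) =
      ∏ i, ∫ z, (fourier (k i) : C(UnitAddCircle, ℂ)) z ∂AddCircle.haarAddCircle :=
    integral_fintype_prod_eq_prod (fun i => fun z => (fourier (k i) : C(UnitAddCircle, ℂ)) z)
  rw [h2]
  simp_rw [h1]
  by_cases hk : k = 0
  · rw [if_pos hk]
    subst hk
    simp
  · rw [if_neg hk]
    obtain ⟨i, hi⟩ := Function.ne_iff.1 hk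
    exact Finset.prod_eq_zero (Finset.mem_univ i) (if_neg hi)

lemma mFourier_pt (k : Fin s → ℤ) (x : Fin s → ℝ) :
    (UnitAddTorus.mFourier k : C(UnitAddTorus (Fin s), ℂ)) (pt x) = ee (∑ i, k i * x i) := by
  have h1 : (UnitAddTorus.mFourier k : C(UnitAddTorus (Fin s), ℂ)) (pt x) =
      ∏ i, (fourier (k i) : C(UnitAddCircle, ℂ)) (x i : UnitAddCircle) := rfl
  rw [h1, ee]
  simp_rw [fourier_coe_apply]
  rw [← Complex.exp_sum]
  congr 1
  push_cast
  rw [Finset.mul_sum]
  refine Finset.sum_congr rfl fun i _ => ?_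
  ring

lemma mean_mFourier (k : Fin s → ℤ) :
    Mn (UnitAddTorus.mFourier k : C(UnitAddTorus (Fin s), ℂ))
      (∫ z, (UnitAddTorus.mFourier k : C(UnitAddTorus (Fin s), ℂ)) z ∂(haar s)) := by
  intro ε hε
  rw [integral_mFourier]
  by_cases hk : k = 0
  · refine Eventually.of_forall fun K S x _ => ?_
    rw [if_pos hk, hk, UnitAddTorus.mFourier_zero]
    simp
    positivity
  · rw [if_neg hk]
    obtain ⟨m, hm⟩ : ∃ m : ℕ, ∀ i, |k i| ≤ m := by
      refine ⟨∑ i, (k i).natAbs, fun i => ?_⟩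
      rw [Int.abs_eq_natAbs]
      exact_mod_cast Finset.single_le_sum (f := fun i => (k i).natAbs) (fun _ _ => Nat.zero_le _) (Finset.mem_univ i)
    have h1 : ∀ᶠ K : ℕ in atTop, 1 / ε ≤ K := tendsto_natCast_atTop_atTop.eventually_ge_atTop _
    filter_upwards [h1, eventually_ge_atTop m, eventually_gt_atTop 0] with K hK hmK hK0 S x hC
    have h2 := hC k hk (fun i => (hm i).trans (by exact_mod_cast hmK))
    have h3 : ∑ n ∈ S, (UnitAddTorus.mFourier k : C(UnitAddTorus (Fin s), ℂ)) (pt (x n)) =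
        ∑ n ∈ S, ee (∑ i, k i * x n i) := Finset.sum_congr rfl fun n _ => mFourier_pt k _
    rw [h3, mul_zero, sub_zero]
    rw [div_le_iff₀ hε] at hK
    have h4 := norm_nonneg (∑ n ∈ S, ee (∑ i, k i * x n i))
    nlinarith

lemma integrable_cont (F : C(UnitAddTorus (Fin s), ℂ)) : Integrable F (haar s) :=
  (map_continuous F).integrable_of_hasCompactSupport (HasCompactSupport.of_compactSpace _)

theorem mean (F : C(UnitAddTorus (Fin s), ℂ)) : Mn F (∫ z, F z ∂(haar s)) := by
  have h2 : ∀ p ∈ Submodule.span ℂ (Set.range (UnitAddTorus.mFourier (d := Fin s))),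
      Mn p (∫ z, p z ∂(haar s)) := by
    intro p hp
    induction hp using Submodule.span_induction with
    | mem p hp =>
      obtain ⟨m, rfl⟩ := hp
      exact mean_mFourier m
    | zero =>
      intro ε hε
      refine Eventually.of_forall fun K S x _ => ?_
      simp
      positivity
    | add p q _ _ hp hq =>
      have e1 : ∫ z, (p + q) z ∂(haar s) = ∫ z, p z ∂(haar s) + ∫ z, q z ∂(haar s) := by
        rw [← integral_add (integrable_cont p) (integrable_cont q)]
        rfl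
      rw [e1]
      intro ε hε
      filter_upwards [hp (ε / 2) (by positivity), hq (ε / 2) (by positivity)] with K h3 h4 S x hC
      have h5 := h3 S x hC
      have h6 := h4 S x hC
      have e2 : ∑ n ∈ S, (p + q) (pt (x n)) - (S.card : ℂ) * (∫ z, p z ∂(haar s) + ∫ z, q z ∂(haar s)) =
          (∑ n ∈ S, p (pt (x n)) - (S.card : ℂ) * ∫ z, p z ∂(haar s)) +
            (∑ n ∈ S, q (pt (x n)) - (S.card : ℂ) * ∫ z, q z ∂(haar s)) := by
        simp only [ContinuousMap.add_apply, Finset.sum_add_distrib]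
        ring
      rw [e2]
      refine (norm_add_le _ _).trans ?_
      linarith
    | smul c p _ hp =>
      have e1 : ∫ z, (c • p) z ∂(haar s) = c * ∫ z, p z ∂(haar s) := by
        rw [← integral_const_mul]
        rfl
      rw [e1]
      intro ε hε
      filter_upwards [hp (ε / (‖c‖ + 1)) (by positivity)] with K h3 S x hC
      have h5 := h3 S x hC
      have e2 : ∑ n ∈ S, (c • p) (pt (x n)) - (S.card : ℂ) * (c * ∫ z, p z ∂(haar s)) =
          c * (∑ n ∈ S, p (pt (x n)) - (S.card : ℂ) * ∫ z, p z ∂(haar s)) := by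
        simp only [ContinuousMap.smul_apply, smul_eq_mul, ← Finset.mul_sum]
        ring
      rw [e2, norm_mul]
      refine (mul_le_mul_of_nonneg_left h5 (norm_nonneg _)).trans ?_
      have h6 : ‖c‖ * (ε / (‖c‖ + 1)) ≤ ε := by
        rw [← mul_div_assoc, div_le_iff₀ (by positivity)]
        nlinarith [norm_nonneg c]
      calc ‖c‖ * (ε / (‖c‖ + 1) * S.card) = ‖c‖ * (ε / (‖c‖ + 1)) * S.card := by ring
        _ ≤ ε * S.card := mul_le_mul_of_nonneg_right h6 (Nat.cast_nonneg _)
  intro ε hε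
  have h3 : F ∈ (Submodule.span ℂ (Set.range (UnitAddTorus.mFourier (d := Fin s)))).topologicalClosure := by
    rw [UnitAddTorus.span_mFourier_closure_eq_top]
    trivial
  have h4 : F ∈ closure ((Submodule.span ℂ (Set.range (UnitAddTorus.mFourier (d := Fin s))) : Submodule ℂ
      C(UnitAddTorus (Fin s), ℂ)) : Set C(UnitAddTorus (Fin s), ℂ)) := h3
  rw [Metric.mem_closure_iff] at h4
  obtain ⟨p, hp, hFp⟩ := h4 (ε / 3) (by positivity)
  have hpt : ∀ z, ‖F z - p z‖ ≤ ε / 3 := fun z => by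
    have := ContinuousMap.norm_coe_le_norm (F - p) z
    exact this.trans (by rw [dist_eq_norm] at hFp; exact hFp.le)
  filter_upwards [h2 p hp (ε / 3) (by positivity)] with K hK S x hC
  have h6 := hK S x hC
  have h7 : ‖∑ n ∈ S, F (pt (x n)) - ∑ n ∈ S, p (pt (x n))‖ ≤ ε / 3 * S.card := by
    rw [← Finset.sum_sub_distrib]
    refine (norm_sum_le _ _).trans ?_
    refine (Finset.sum_le_sum fun n _ => hpt _).trans ?_
    rw [Finset.sum_const, nsmul_eq_mul, mul_comm]
  have h8 : ‖(∫ z, p z ∂(haar s)) - ∫ z, F z ∂(haar s)‖ ≤ ε / 3 := by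
    rw [← integral_sub (integrable_cont p) (integrable_cont F)]
    refine (norm_integral_le_of_norm_le_const (C := ε / 3) (ae_of_all _ fun z => ?_)).trans ?_
    · rw [norm_sub_rev]
      exact hpt z
    · simp
  have h9 : ∑ n ∈ S, F (pt (x n)) - (S.card : ℂ) * ∫ z, F z ∂(haar s) =
      (∑ n ∈ S, F (pt (x n)) - ∑ n ∈ S, p (pt (x n))) +
      (∑ n ∈ S, p (pt (x n)) - (S.card : ℂ) * ∫ z, p z ∂(haar s)) +
      (S.card : ℂ) * ((∫ z, p z ∂(haar s)) - ∫ z, F z ∂(haar s)) := by ring
  rw [h9]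
  refine (norm_add₃_le).trans ?_
  rw [norm_mul, Complex.norm_natCast]
  have h10 := mul_le_mul_of_nonneg_left h8 (Nat.cast_nonneg (α := ℝ) S.card)
  linarith

end Pool.Agent.J4H75.PN
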